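import Pool.Agent.Run7.h718.ND.Cur

/-!
Entire curves which satisfy a `q`-difference equation of the first order: the theorem, given the
finiteness of the pluricanonical forms.
-/

set_option autoImplicit false
set_option linter.overlappingInstances false
set_option linter.unusedSectionVars false
set_option maxHeartbeats 1000000
set_option synthInstance.maxHeartbeats 400000

open FF MvPolynomial Pool.Agent.W602.GT Pool.Agent.TH143.GT Pool.Agent.W603.BPR Pool.Agent.W603.BP

namespace Pool.Agent.Run7.h718.ND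

theorem zz_transc : Transcendental ℂ (im zz) := by
  rw [transcendental_iff]
  intro P hP
  rw [← im_pol] at hP
  by_contra h0
  exact im_ne (pol_ne h0) hP

/-- a function field which consists of rational functions of `z` -/
theorem covered_of_rat {K : Type} [Field K] [Algebra ℂ K] (ι : K →ₐ[ℂ] Mer)
    (h : ∀ r, IsRatl (ι r)) {r : K} (hr : Transcendental ℂ r) : Covered K := by
  let e := RatFunc.algEquivOfTranscendental (im zz) zz_transc
  let ψ0 : K →ₐ[ℂ] IntermediateField.adjoin ℂ {im zz} :=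
    { toFun := fun r => ⟨ι r, isRatl_iff.1 (h r)⟩
      map_one' := Subtype.ext (map_one ι)
      map_mul' := fun a b => Subtype.ext (map_mul ι a b)
      map_zero' := Subtype.ext (map_zero ι)
      map_add' := fun a b => Subtype.ext (map_add ι a b)
      commutes' := fun c => Subtype.ext (ι.commutes c) }
  let ψ : K →ₐ[ℂ] RatFunc ℂ := (e.symm.toAlgHom).comp ψ0
  refine ⟨ℂ, inferInstance, inferInstance, ψ, r, fun c hc => hr ?_⟩
  have h1 : r = algebraMap ℂ K c := by
    apply ψ.toRingHom.injective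
    refine hc.trans ?_
    exact (ψ.commutes c).symm
  rw [h1]
  exact isAlgebraic_algebraMap c

theorem alg_set {k K : Type} [Field k] [Field K] [Algebra k K] {S : Set K}
    (hw : IntermediateField.adjoin k S = ⊤) : Algebra.IsAlgebraic (Algebra.adjoin k S) K := by
  have h0 : Algebra.IsAlgebraic (IntermediateField.adjoin k S) K := by
    constructor
    intro x
    have hx : x ∈ IntermediateField.adjoin k S := by
      rw [hw]
      exact IntermediateField.mem_top
    exact isAlgebraic_algebraMap (⟨x, hx⟩ : IntermediateField.adjoin k S)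
  open scoped IntermediateField.algebraAdjoinAdjoin in
  exact Algebra.IsAlgebraic.trans _ (IntermediateField.adjoin k S) K

theorem trdeg_ratFunc : Algebra.trdeg ℂ (RatFunc ℂ) ≤ 1 := by
  have h1 := alg_set (RatFunc.adjoin_X (K := ℂ))
  have h2 := Algebra.IsAlgebraic.trdeg_le_cardinalMk ℂ (A := RatFunc ℂ) {RatFunc.X}
  rwa [Cardinal.mk_singleton] at h2

/-- the dimension of the field of the rational functions of `z` -/
theorem le_one_of_ratl {K : Type} [Field K] [Algebra ℂ K] (ι : K →ₐ[ℂ] Mer) {w : ℕ} {r : Fin w → K}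
    (hr : AlgebraicIndependent ℂ r) (h : ∀ i, IsRatl (ι (r i))) : w ≤ 1 := by
  have h1 : AlgebraicIndependent ℂ (fun i => ι (r i)) := hr.map' ι.toRingHom.injective
  let R : Fin w → IntermediateField.adjoin ℂ {im zz} := fun i => ⟨ι (r i), isRatl_iff.1 (h i)⟩
  have h2 : AlgebraicIndependent ℂ R :=
    AlgebraicIndependent.of_comp (IntermediateField.adjoin ℂ {im zz}).val h1
  have h3 := h2.cardinalMk_le_trdeg
  have h4 : Algebra.trdeg ℂ (IntermediateField.adjoin ℂ {im zz}) ≤ 1 := by
    rw [← (RatFunc.algEquivOfTranscendental (im zz) zz_transc).trdeg_eq]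
    exact trdeg_ratFunc
  rw [Cardinal.mk_fin] at h3
  exact_mod_cast h3.trans h4

variable {n w : ℕ} {K : Type} [Field K] [Algebra ℂ K] {y : Fin (n + 1) → K}
  {f : ℂ → Fin (n + 1) → ℂ} {p : Ideal (MvPolynomial (Fin (n + 1)) ℂ)}

/-- **The theorem.** -/
theorem curve_main (hF : S_FIN) (hy : FunField p 1 K w y) (hf : EntireCurve p 1 f)
    (hd : ZDense p f Set.univ) {q : ℂ} (hq0 : q ≠ 0) (hqr : ∀ n : ℕ, 0 < n → q ^ n ≠ 1)
    (hDE : DiffEq q f) :
    ((Covered K ∧ ∀ N, 0 < N → ∀ ω : (Fin w → Derivation ℂ K K) → K, Pluricanonical w N ω → ω = 0) ∨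
      ∀ N, 0 < N → ∀ ω1 ω2 : (Fin w → Derivation ℂ K K) → K, Pluricanonical w N ω1 →
        Pluricanonical w N ω2 → ∀ (D : Fin w → Derivation ℂ K K), ω1 D ≠ 0 →
        RationalAlong y f (ω2 D / ω1 D)) ∧
    ¬ KodGe ℂ K w (fun _ => False) 2 ∧ ¬ GeneralType ℂ K w := by
  classical
  obtain ⟨hfd, hfne, -, -⟩ := ent_data hf
  have hgp : GenPt f Set.univ K w y := hy.genPt (fun z _ => (hf.2.1 z).2.1) hd
  have hw : Algebra.trdeg ℂ K = w := hgp.dim
  have hw0 : 0 < w := dim_pos hgp hfd hf.2.2 hfne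
  have hess : Algebra.EssFiniteType ℂ K := ess_of_coords hgp.gen
  obtain ⟨ι, hι⟩ := exists_emb hgp hfd
  have hst := stage hF hw hq0 hqr ι (stable_of_eq hgp hfd hq0 hDE hι)
  have hPL : Covered K → ∀ N, 0 < N → ∀ ω : (Fin w → Derivation ℂ K K) → K,
      Pluricanonical w N ω → ω = 0 := fun hc =>
    Pool.Agent.Y288.IL.t_PL n p K w y hy hw0 hc
  obtain ⟨x, E, hx, hE⟩ : ∃ (x : Fin w → K) (E : Fin w → Derivation ℂ K K),
      IsTranscendenceBasis ℂ x ∧ ∀ i j, E i (x j) = if i = j then 1 else 0 := by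
    obtain ⟨ιx, z, hz⟩ := exists_isTranscendenceBasis' ℂ K
    have h1 := hz.cardinalMk_eq_trdeg
    rw [hw] at h1
    have h2 : Cardinal.lift.{0} (Cardinal.mk ιx) = Cardinal.lift.{0} (Cardinal.mk (Fin w)) := by
      rw [h1]
      simp
    obtain ⟨e⟩ := Cardinal.lift_mk_eq'.1 h2
    have h3 : IsTranscendenceBasis ℂ (z ∘ e.symm) := (isTranscendenceBasis_equiv e.symm).2 hz
    choose E hE using fun i : Fin w => exists_der _ h3 fun j => if i = j then 1 else 0
    exact ⟨_, E, h3, hE⟩
  -- the quotients of the forms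
  have hquot : ∀ N, ∀ ω1 ω2 : (Fin w → Derivation ℂ K K) → K, IsPluri N ω1 → IsPluri N ω2 →
      ∀ D : Fin w → Derivation ℂ K K, ω1 D ≠ 0 → ω1 E ≠ 0 ∧ ω2 D / ω1 D = ω2 E / ω1 E := by
    intro N ω1 ω2 h1 h2 D hD
    have e1 : ω1 D = (Matrix.of fun i j => D i (x j)).det ^ N * ω1 E :=
      congrFun (eq_frm hx hE h1) D
    have e2 : ω2 D = (Matrix.of fun i j => D i (x j)).det ^ N * ω2 E :=
      congrFun (eq_frm hx hE h2) D
    have h3 : (Matrix.of fun i j => D i (x j)).det ^ N ≠ 0 := by
      intro h0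
      rw [h0, zero_mul] at e1
      exact hD e1
    refine ⟨fun h0 => hD (by rw [e1, h0, mul_zero]), ?_⟩
    rw [e1, e2, mul_div_mul_left _ _ h3]
  refine ⟨?_, ?_, ?_⟩
  · rcases hst with hc | hr
    · exact Or.inl ⟨hc, hPL hc⟩
    · right
      intro N hN ω1 ω2 h1 h2 D hD d g1 g0 hg1 hg0 hn hq
      obtain ⟨h3, h4⟩ := hquot N ω1 ω2 h1.1 h2.1 D hD
      obtain ⟨A, B, hB, hAB⟩ := hr x hx N hN _ (mem_Gs_of hx hE h2.1 h2.2) _
        (mem_Gs_of hx hE h1.1 h1.2) h3
      obtain ⟨h5, h6⟩ := hι d g1 g0 hg1 hg0 hn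
      rw [← h4, hq, h5] at hAB
      refine ⟨A, B, hB, fun z => ?_⟩
      have h7 : pol B * aeval (fe hfd) g1 = pol A * aeval (fe hfd) g0 := by
        apply im_inj
        rw [im_mul, im_mul, ← hAB]
        have h8 := im_ne h6
        field_simp
      have h8 := congrArg (evl z) h7
      rw [map_mul, map_mul, eval_form, eval_form] at h8
      exact h8
  · rintro ⟨N, hN, ω, hω, D, hD, hind⟩
    have hreg : ∀ j, ∀ P : Place ℂ K, Divisorial w P → RegAt P (ω j) := fun j P hP =>
      (hω j).2.2 P hP id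
    have hcov : ¬ Covered K := by
      intro hc
      apply hD
      rw [hPL hc N hN (ω 0) ⟨(hω 0).1, hreg 0⟩]
      rfl
    have hr := hst.resolve_left hcov
    have h2 : 2 ≤ 1 := le_one_of_ratl ι hind fun i => by
      obtain ⟨h3, h4⟩ := hquot N (ω 0) (ω i.succ) (hω 0).1 (hω i.succ).1 D hD
      rw [h4]
      exact hr x hx N hN _ (mem_Gs_of hx hE (hω _).1 (hreg _)) _
        (mem_Gs_of hx hE (hω _).1 (hreg _)) h3
    omega
  · rintro ⟨-, N, hN, ω, hω, hreg, D, hD, hind⟩
    have hcov : ¬ Covered K := by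
      intro hc
      apply hD
      rw [hPL hc N hN (ω 0) ⟨hω 0, fun P hP => hreg P hP 0⟩]
      rfl
    have hr := hst.resolve_left hcov
    have hrat : ∀ i : Fin w, IsRatl (ι (ω i.succ D / ω 0 D)) := by
      intro i
      obtain ⟨h3, h4⟩ := hquot N (ω 0) (ω i.succ) (hω 0) (hω i.succ) D hD
      rw [h4]
      exact hr x hx N hN _ (mem_Gs_of hx hE (hω _) fun P hP => hreg P hP _) _
        (mem_Gs_of hx hE (hω _) fun P hP => hreg P hP _) h3
    have hw1 : w ≤ 1 := le_one_of_ratl ι hind hrat
    have hw' : w = 1 := by omega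
    -- the function field consists of rational functions
    apply hcov
    have hbas : IsTranscendenceBasis ℂ (fun i : Fin w => ω i.succ D / ω 0 D) := by
      refine hind.isTranscendenceBasis_of_trdeg_le_of_finite ?_
      rw [hw, Cardinal.mk_fin]
    have halg := hbas.isAlgebraic
    refine covered_of_rat ι (fun s => ?_) (hind.transcendental ⟨0, hw0⟩)
    refine alg_rat ?_
    have h1 : IsAlgebraic (Algebra.adjoin ℂ (Set.range fun i : Fin w => ω i.succ D / ω 0 D)) s :=
      Algebra.IsAlgebraic.isAlgebraic s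
    obtain ⟨P, hP0, hP⟩ := h1
    -- transport of the polynomial
    let θ : Algebra.adjoin ℂ (Set.range fun i : Fin w => ω i.succ D / ω 0 D) →+*
        IntermediateField.adjoin ℂ {im zz} :=
      { toFun := fun a => ⟨ι a, by
          have h2 : (a : K) ∈ ((IntermediateField.adjoin ℂ {im zz}).comap ι).toSubalgebra := by
            refine Algebra.adjoin_le ?_ a.2
            rintro _ ⟨i, rfl⟩
            exact isRatl_iff.1 (hrat i)
          exact h2⟩
        map_one' := Subtype.ext (map_one ι)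
        map_mul' := fun a b => Subtype.ext (map_mul ι (a : K) (b : K))
        map_zero' := Subtype.ext (map_zero ι)
        map_add' := fun a b => Subtype.ext (map_add ι (a : K) (b : K)) }
    have hθinj : Function.Injective θ := by
      intro a b hab
      apply Subtype.ext
      exact ι.toRingHom.injective (congrArg Subtype.val hab)
    refine ⟨P.map θ, (Polynomial.map_ne_zero_iff hθinj).2 hP0, ?_⟩
    have h2 := congrArg ι hP
    rw [map_zero, Polynomial.aeval_def] at h2
    have h3 := Polynomial.hom_eval₂ P (algebraMap (Algebra.adjoin ℂ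
      (Set.range fun i : Fin w => ω i.succ D / ω 0 D)) K) (ι : K →+* Mer) s
    rw [Polynomial.aeval_def, Polynomial.eval₂_map]
    exact h3.symm.trans h2

end Pool.Agent.Run7.h718.ND
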