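import Pool.Agent.Run7.h718.ND.Lau
import Mathlib.FieldTheory.IntermediateField.Adjoin.Algebra

/-!
Meromorphic functions which are algebraic over the field of rational functions are rational.
-/

set_option autoImplicit false
set_option maxHeartbeats 4000000
set_option synthInstance.maxHeartbeats 400000

namespace Pool.Agent.Run7.h718.ND

open Set Filter Topology

/-- rational functions of `z` -/
def IsRatl (h : Mer) : Prop := ∃ A B : Polynomial ℂ, B ≠ 0 ∧ im (pol B) * h = im (pol A)

theorem pol_ne {B : Polynomial ℂ} (h : B ≠ 0) : pol B ≠ 0 := by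
  intro h0
  apply h
  apply Polynomial.funext
  intro x
  have := congrFun (congrArg Subtype.val h0) x
  rw [pol_apply] at this
  rw [this, Polynomial.eval_zero]
  rfl

theorem pol_zero : pol 0 = 0 := by
  apply Subtype.ext
  funext z
  rw [pol_apply, Polynomial.eval_zero]
  rfl

theorem pol_eq_aeval (P : Polynomial ℂ) : pol P = Polynomial.aeval zz P := by
  apply Subtype.ext
  funext z
  rw [pol_apply]
  have h1 : (Polynomial.aeval zz P).1 z = ((Pi.evalAlgHom ℂ (fun _ : ℂ => ℂ) z).comp Ent.val)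
      (Polynomial.aeval zz P) := rfl
  rw [h1, ← Polynomial.aeval_algHom_apply]
  change _ = Polynomial.aeval z P
  rw [Polynomial.coe_aeval_eq_eval]

theorem im_pol (P : Polynomial ℂ) : im (pol P) = Polynomial.aeval (im zz) P := by
  rw [pol_eq_aeval]
  exact (Polynomial.aeval_algHom_apply (IsScalarTower.toAlgHom ℂ Ent Mer) zz P).symm

theorem isRatl_iff {h : Mer} : IsRatl h ↔ h ∈ IntermediateField.adjoin ℂ {im zz} := by
  rw [IntermediateField.mem_adjoin_simple_iff]
  constructor
  · rintro ⟨A, B, hB, h1⟩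
    refine ⟨A, B, ?_⟩
    have h2 := im_ne (pol_ne hB)
    rw [← im_pol, ← im_pol, ← h1]
    field_simp
  · rintro ⟨A, B, h1⟩
    by_cases hB : (Polynomial.aeval (im zz) B) = 0
    · refine ⟨0, 1, one_ne_zero, ?_⟩
      rw [h1, hB, div_zero, mul_zero, pol_zero]
      exact (map_zero _).symm
    · refine ⟨A, B, ?_, ?_⟩
      · rintro rfl
        exact hB (map_zero _)
      · rw [im_pol, im_pol, h1]
        field_simp

/-- quotients of entire functions with a bound -/
theorem exists_quot {a b : ℂ → ℂ} (ha : Differentiable ℂ a) (hb : Differentiable ℂ b)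
    (hb0 : ∃ z, b z ≠ 0) {M : ℂ → ℝ} (hM : Continuous M) (h : ∀ z, b z ≠ 0 → ‖a z / b z‖ ≤ M z) :
    ∃ G : ℂ → ℂ, Differentiable ℂ G ∧ ∀ z, b z ≠ 0 → G z = a z / b z := by
  classical
  let F : ℂ → ℂ := fun z => a z / b z
  let G : ℂ → ℂ := fun z => if b z ≠ 0 then F z else limUnder (𝓝[≠] z) F
  have hG : ∀ z, b z ≠ 0 → G z = F z := fun z hz => if_pos hz
  refine ⟨G, fun c => ?_, hG⟩
  by_cases hc : b c = 0
  · have h1 : ∀ᶠ z in 𝓝[≠] c, b z ≠ 0 := by
      rcases (hb.analyticAt c).eventually_eq_zero_or_eventually_ne_zero with h2 | h2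
      · exact absurd h2 (not_ev_zero hb hb0 c)
      · exact h2
    rw [eventually_nhdsWithin_iff, Metric.eventually_nhds_iff_ball] at h1
    obtain ⟨r, hr, h1⟩ := h1
    obtain ⟨C, hC⟩ := (isCompact_closedBall c r).exists_bound_of_continuousOn hM.continuousOn
    have h2 := Complex.differentiableOn_update_limUnder_of_bddAbove (f := F)
      (s := Metric.ball c r) (Metric.ball_mem_nhds c hr) (fun z hz =>
        ((ha z).div (hb z) (h1 z hz.1 hz.2)).differentiableWithinAt) ⟨C, by
          rintro _ ⟨z, hz, rfl⟩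
          have h3 := h z (h1 z hz.1 hz.2)
          have h4 := hC z (Metric.ball_subset_closedBall hz.1)
          exact h3.trans ((le_abs_self _).trans h4)⟩
    have h3 : G =ᶠ[𝓝 c] Function.update F c (limUnder (𝓝[≠] c) F) := by
      filter_upwards [Metric.ball_mem_nhds c hr] with z hz
      by_cases hzc : z = c
      · rw [hzc, Function.update_self]
        exact if_neg (not_not.2 hc)
      · rw [Function.update_of_ne hzc]
        exact hG z (h1 z hz hzc)
    exact ((h2 c (Metric.mem_ball_self hr)).differentiableAt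
      (Metric.ball_mem_nhds c hr)).congr_of_eventuallyEq h3
  · have h1 : G =ᶠ[𝓝 c] F := by
      filter_upwards [hb.continuous.continuousAt.eventually_ne hc] with z hz
      exact hG z hz
    exact ((ha c).div (hb c) hc).congr_of_eventuallyEq h1

/-- entire functions of polynomial growth -/
theorem pol_of_growth (G : Ent) (N : ℕ) (C : ℝ) (h : ∀ z, ‖G.1 z‖ ≤ C * (1 + ‖z‖) ^ N) :
    ∃ P : Polynomial ℂ, G = pol P := by
  have hG : Differentiable ℂ G.1 := G.2
  refine pol_of_taylor G (N + 1) fun k hk => ?_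
  have hC : 0 ≤ C := by
    have h1 := (norm_nonneg _).trans (h 0)
    simpa using h1
  by_contra hne
  have hpos : 0 < ‖iteratedDeriv k G.1 0‖ := norm_pos_iff.2 hne
  have key : ∀ r : ℝ, 1 ≤ r → ‖iteratedDeriv k G.1 0‖ * r ≤ k.factorial * (C * 2 ^ N) := by
    intro r hr
    have hr0 : 0 < r := by linarith
    have h1 := Complex.norm_iteratedDeriv_le_of_forall_mem_sphere_norm_le (f := G.1) (c := 0)
      (C := C * (2 * r) ^ N) k hr0 hG.diffContOnCl (by
        intro z hz
        have hz' : ‖z‖ = r := by simpa using hz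
        refine (h z).trans ?_
        rw [hz']
        gcongr
        linarith)
    rw [le_div_iff₀ (by positivity)] at h1
    obtain ⟨j, hj⟩ : ∃ j, k = N + 1 + j := ⟨k - (N + 1), by omega⟩
    have h2 : r * r ^ N ≤ r ^ k := by
      have h2' : r ^ k = r ^ (N + 1) * r ^ j := by rw [hj, pow_add]
      rw [← pow_succ', h2']
      exact le_mul_of_one_le_right (by positivity) (one_le_pow₀ hr)
    have h3 : ‖iteratedDeriv k G.1 0‖ * (r * r ^ N) ≤ k.factorial * (C * (2 * r) ^ N) :=
      (mul_le_mul_of_nonneg_left h2 (norm_nonneg _)).trans h1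
    have h4 : (k.factorial : ℝ) * (C * (2 * r) ^ N) = (k.factorial * (C * 2 ^ N)) * r ^ N := by
      rw [mul_pow]
      ring
    rw [h4, ← mul_assoc] at h3
    exact le_of_mul_le_mul_right h3 (by positivity)
  have h1 := key (max 1 ((k.factorial * (C * 2 ^ N) + 1) / ‖iteratedDeriv k G.1 0‖)) (le_max_left _ _)
  have h2 : k.factorial * (C * 2 ^ N) + 1 ≤ ‖iteratedDeriv k G.1 0‖ *
      max 1 ((k.factorial * (C * 2 ^ N) + 1) / ‖iteratedDeriv k G.1 0‖) := by
    have h3 := mul_le_mul_of_nonneg_left (le_max_right 1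
      ((k.factorial * (C * 2 ^ N) + 1) / ‖iteratedDeriv k G.1 0‖)) hpos.le
    rwa [mul_div_cancel₀ _ hpos.ne'] at h3
  linarith

theorem pol_bound (P : Polynomial ℂ) : ∃ C : ℝ, 0 ≤ C ∧ ∀ z : ℂ,
    ‖P.eval z‖ ≤ C * (1 + ‖z‖) ^ P.natDegree := by
  refine ⟨∑ i ∈ Finset.range (P.natDegree + 1), ‖P.coeff i‖,
    Finset.sum_nonneg fun i _ => norm_nonneg _, fun z => ?_⟩
  rw [Polynomial.eval_eq_sum_range, Finset.sum_mul]
  refine (norm_sum_le _ _).trans (Finset.sum_le_sum fun i hi => ?_)
  rw [norm_mul, norm_pow]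
  refine mul_le_mul_of_nonneg_left ?_ (norm_nonneg _)
  have h1 : ‖z‖ ^ i ≤ (1 + ‖z‖) ^ i := by gcongr; linarith
  refine h1.trans (pow_le_pow_right₀ (by linarith [norm_nonneg z]) ?_)
  exact Nat.lt_succ_iff.1 (Finset.mem_range.1 hi)

/-- the roots of monic polynomials -/
theorem root_bound {d : ℕ} (c : ℕ → ℂ) (u : ℂ) (h : u ^ d = -∑ i ∈ Finset.range d, c i * u ^ i) :
    ‖u‖ ≤ 1 + ∑ i ∈ Finset.range d, ‖c i‖ := by
  have hs : 0 ≤ ∑ i ∈ Finset.range d, ‖c i‖ := Finset.sum_nonneg fun i _ => norm_nonneg _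
  by_cases hu : ‖u‖ ≤ 1
  · linarith
  push Not at hu
  rcases Nat.eq_zero_or_pos d with hd | hd
  · rw [hd] at h
    simp at h
  have h1 : ‖u‖ ^ d ≤ (∑ i ∈ Finset.range d, ‖c i‖) * ‖u‖ ^ (d - 1) := by
    rw [← norm_pow, h, norm_neg, Finset.sum_mul]
    refine (norm_sum_le _ _).trans (Finset.sum_le_sum fun i hi => ?_)
    rw [norm_mul, norm_pow]
    refine mul_le_mul_of_nonneg_left (pow_le_pow_right₀ hu.le ?_) (norm_nonneg _)
    have := Finset.mem_range.1 hi
    omega
  have h2 : ‖u‖ ^ d = ‖u‖ * ‖u‖ ^ (d - 1) := by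
    rw [← pow_succ']
    congr 1
    omega
  rw [h2] at h1
  have h3 := le_of_mul_le_mul_right h1 (by positivity)
  linarith

theorem isAlg_adjoin {F K : Type} [Field F] [Field K] [Algebra F K] (S : Set K) {h : K}
    (hh : IsAlgebraic (IntermediateField.adjoin F S) h) : IsAlgebraic (Algebra.adjoin F S) h := by
  open scoped IntermediateField.algebraAdjoinAdjoin in
  exact hh.restrictScalars _

/-- **Algebraic functions which are meromorphic in the plane are rational.** -/
theorem alg_rat {h : Mer} (halg : IsAlgebraic (IntermediateField.adjoin ℂ {im zz}) h) :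
    IsRatl h := by
  classical
  have h0 : IsAlgebraic (Algebra.adjoin ℂ {im zz}) h := isAlg_adjoin _ halg
  obtain ⟨y, hy0, hy⟩ := h0.exists_integral_multiple
  have hmem : ∀ r : Algebra.adjoin ℂ {im zz}, ∃ P : Polynomial ℂ, (r : Mer) = im (pol P) := by
    rintro ⟨r, hr⟩
    rw [Algebra.adjoin_singleton_eq_range_aeval] at hr
    obtain ⟨P, hP⟩ := hr
    exact ⟨P, by rw [im_pol]; exact hP.symm⟩
  obtain ⟨Y, hY⟩ := hmem y
  obtain ⟨p, hp, hp0⟩ := hy
  choose Cf hCf using fun i => hmem (p.coeff i)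
  obtain ⟨g, hg⟩ : ∃ g : Mer, g = y • h := ⟨_, rfl⟩
  have hgy : g = im (pol Y) * h := by rw [hg, Algebra.smul_def, ← hY]; rfl
  rw [← hg] at hp0
  have hrel : g ^ p.natDegree = -∑ i ∈ Finset.range p.natDegree, im (pol (Cf i)) * g ^ i := by
    rw [Polynomial.eval₂_eq_sum_range, Finset.sum_range_succ] at hp0
    have h1 : (algebraMap (Algebra.adjoin ℂ {im zz}) Mer) (p.coeff p.natDegree) = 1 := by
      rw [hp.coeff_natDegree, map_one]
    rw [h1, one_mul] at hp0
    rw [eq_neg_iff_add_eq_zero, add_comm, ← hp0]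
    congr 1
    refine Finset.sum_congr rfl fun i _ => ?_
    rw [← hCf]
    rfl
  -- the quotient
  obtain ⟨a, b, hb, hab⟩ := IsFractionRing.div_surjective Ent g
  have hb0 : b ≠ 0 := nonZeroDivisors.ne_zero hb
  have hbi : im b ≠ 0 := im_ne hb0
  have hgb : g * im b = im a := by
    rw [← hab]
    field_simp
  set d := p.natDegree with hd
  have hpt : ∀ z, b.1 z ≠ 0 → (a.1 z / b.1 z) ^ d =
      -∑ i ∈ Finset.range d, (Cf i).eval z * (a.1 z / b.1 z) ^ i := by
    intro z hz
    have h1 : im (a ^ d) = im (-∑ i ∈ Finset.range d, pol (Cf i) * (a ^ i * b ^ (d - i))) := by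
      have h2 : im (-∑ i ∈ Finset.range d, pol (Cf i) * (a ^ i * b ^ (d - i))) =
          -∑ i ∈ Finset.range d, im (pol (Cf i)) * (im a ^ i * im b ^ (d - i)) := by
        unfold im
        rw [map_neg, map_sum]
        congr 1
        refine Finset.sum_congr rfl fun i _ => ?_
        rw [map_mul, map_mul, map_pow, map_pow]
      rw [h2, im_pow, ← hgb, mul_pow, hrel, neg_mul, Finset.sum_mul]
      congr 1
      refine Finset.sum_congr rfl fun i hi => ?_
      have h3 : im b ^ d = im b ^ i * im b ^ (d - i) := by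
        rw [← pow_add]
        congr 1
        have := Finset.mem_range.1 hi
        omega
      rw [h3, mul_pow]
      ring
    have h2 := congrFun (congrArg Subtype.val (im_inj h1)) z
    have h3 : (a ^ d).1 z = a.1 z ^ d := by
      have := congrFun (SubmonoidClass.coe_pow a d) z
      exact this
    have h4 : (-∑ i ∈ Finset.range d, pol (Cf i) * (a ^ i * b ^ (d - i)) : Ent).1 z =
        -∑ i ∈ Finset.range d, (Cf i).eval z * (a.1 z ^ i * b.1 z ^ (d - i)) := by
      have h5 : ∀ F : Ent, F.1 z = ((Pi.evalAlgHom ℂ (fun _ : ℂ => ℂ) z).comp Ent.val) F :=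
        fun _ => rfl
      rw [h5, map_neg, map_sum]
      congr 1
    rw [h3, h4] at h2
    rw [div_pow, h2, neg_div, Finset.sum_div]
    congr 1
    refine Finset.sum_congr rfl fun i hi => ?_
    have h6 : b.1 z ^ d = b.1 z ^ i * b.1 z ^ (d - i) := by
      rw [← pow_add]
      congr 1
      have := Finset.mem_range.1 hi
      omega
    rw [h6, div_pow]
    have h7 : b.1 z ^ i ≠ 0 := pow_ne_zero _ hz
    have h8 : b.1 z ^ (d - i) ≠ 0 := pow_ne_zero _ hz
    field_simp
  have hbd : ∀ z, b.1 z ≠ 0 → ‖a.1 z / b.1 z‖ ≤ 1 + ∑ i ∈ Finset.range d, ‖(Cf i).eval z‖ :=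
    fun z hz => root_bound (fun i => (Cf i).eval z) _ (hpt z hz)
  have hMc : Continuous fun z => 1 + ∑ i ∈ Finset.range d, ‖(Cf i).eval z‖ := by
    refine continuous_const.add (continuous_finsetSum _ fun i _ => ?_)
    exact (Cf i).continuous.norm
  have hbne : ∃ z, b.1 z ≠ 0 := by
    by_contra hno
    push Not at hno
    exact hb0 (Subtype.ext (funext hno))
  obtain ⟨G, hGd, hG⟩ := exists_quot (show Differentiable ℂ a.1 from a.2)
    (show Differentiable ℂ b.1 from b.2) hbne hMc hbd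
  have hdense : Dense {z : ℂ | b.1 z ≠ 0} := by
    rw [dense_iff_closure_eq, eq_univ_iff_forall]
    intro c
    rw [mem_closure_iff_nhds]
    intro U hU
    by_contra hno
    have h1 : ∀ᶠ z in 𝓝 c, b.1 z = 0 := by
      filter_upwards [hU] with z hz
      by_contra hz0
      exact hno ⟨z, hz, hz0⟩
    exact not_ev_zero (show Differentiable ℂ b.1 from b.2) hbne c h1
  have hGb : ∀ z, G z * b.1 z = a.1 z := by
    intro z
    have h1 : EqOn (fun z => G z * b.1 z) a.1 {z | b.1 z ≠ 0} := by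
      intro z hz
      change G z * b.1 z = a.1 z
      rw [hG z hz]
      exact div_mul_cancel₀ _ hz
    have h2 := h1.closure (hGd.continuous.mul (show Differentiable ℂ b.1 from b.2).continuous)
      (show Differentiable ℂ a.1 from a.2).continuous
    rw [hdense.closure_eq] at h2
    exact h2 (mem_univ z)
  have hGM : ∀ z, ‖G z‖ ≤ 1 + ∑ i ∈ Finset.range d, ‖(Cf i).eval z‖ := by
    have hcl : IsClosed {z | ‖G z‖ ≤ 1 + ∑ i ∈ Finset.range d, ‖(Cf i).eval z‖} :=
      isClosed_le hGd.continuous.norm hMc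
    have h1 : {z : ℂ | b.1 z ≠ 0} ⊆ {z | ‖G z‖ ≤ 1 + ∑ i ∈ Finset.range d, ‖(Cf i).eval z‖} := by
      intro z hz
      change ‖G z‖ ≤ _
      rw [hG z hz]
      exact hbd z hz
    have h2 := closure_minimal h1 hcl
    rw [hdense.closure_eq] at h2
    exact fun z => h2 (mem_univ z)
  choose Cb hCb0 hCb using fun i => pol_bound (Cf i)
  obtain ⟨n, hn⟩ : ∃ n, ∀ i ∈ Finset.range d, (Cf i).natDegree ≤ n :=
    ⟨(Finset.range d).sup fun i => (Cf i).natDegree, fun i hi =>
      Finset.le_sup (f := fun i => (Cf i).natDegree) hi⟩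
  obtain ⟨P, hP⟩ := pol_of_growth ⟨G, hGd⟩ n (1 + ∑ i ∈ Finset.range d, Cb i) (by
    intro z
    refine (hGM z).trans ?_
    have h1 : 1 ≤ (1 + ‖z‖) ^ n := one_le_pow₀ (by linarith [norm_nonneg z])
    rw [add_mul, one_mul, Finset.sum_mul]
    refine add_le_add h1 (Finset.sum_le_sum fun i hi => (hCb i z).trans ?_)
    exact mul_le_mul_of_nonneg_left (pow_le_pow_right₀ (by linarith [norm_nonneg z]) (hn i hi))
      (hCb0 i))
  refine ⟨P, Y, ?_, ?_⟩
  · rintro rfl
    apply hy0
    apply Subtype.ext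
    rw [hY, pol_zero]
    exact map_zero _
  · rw [← hgy, ← hP]
    apply mul_right_cancel₀ hbi
    rw [hgb, ← im_mul]
    congr 1
    apply Subtype.ext
    funext z
    rw [ent_mul_apply]
    exact (hGb z).symm

end Pool.Agent.Run7.h718.ND
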