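import Pool.Agent.Run7.h718.ND.Frm
import Pool.Agent.Run7.h718.ND.Alg

/-!
The action of a `q`-difference equation on the pluricanonical forms.
-/

set_option autoImplicit false
set_option linter.overlappingInstances false
set_option linter.unusedSectionVars false
set_option maxHeartbeats 4000000
set_option synthInstance.maxHeartbeats 400000

open FF Pool.Agent.W602.GT

namespace Pool.Agent.Run7.h718.ND

/-- **The action on the forms.** -/
theorem act {L : Type} [Field L] [Algebra ℂ L] [Algebra.EssFiniteType ℂ L] {w : ℕ}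
    (hw : Algebra.trdeg ℂ L = w) {q : ℂ} (hq0 : q ≠ 0) (hqr : ∀ n : ℕ, 0 < n → q ^ n ≠ 1)
    (ι : L →ₐ[ℂ] Mer) (φ : L →ₐ[ℂ] L) (hφ : ∀ f, ι (φ f) = sg q hq0 (ι f))
    {x : Fin w → L} (hx : IsTranscendenceBasis ℂ x) {N : ℕ} (hfin : FiniteDimensional ℂ (Gs x N))
    {f g : L} (hf : f ∈ Gs x N) (hg : g ∈ Gs x N) (hg0 : g ≠ 0) : IsRatl (ι (f / g)) := by
  classical
  choose E hE using fun i : Fin w => exists_der x hx fun j => if i = j then 1 else 0
  have hφx : IsTranscendenceBasis ℂ (fun j => φ (x j)) := by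
    refine AlgebraicIndependent.isTranscendenceBasis_of_trdeg_le_of_finite
      (hx.1.map' φ.toRingHom.injective) ?_
    rw [hw, Cardinal.mk_fin]
  obtain ⟨J, hJ⟩ : ∃ J, J = (Matrix.of fun i j => E i (φ (x j))).det := ⟨_, rfl⟩
  have hJ0 : J ≠ 0 := by
    rw [hJ]
    exact jac_ne hφx hx hE
  have hJN : J ^ N ≠ 0 := pow_ne_zero _ hJ0
  have hstab : ∀ f ∈ Gs x N, J ^ N * φ f ∈ Gs x N := by
    intro f hf
    rw [hJ]
    exact pull_Gs hw hw hx hE hx hE φ hf
  let T0 : L →ₗ[ℂ] L := (LinearMap.mulLeft ℂ (J ^ N)).comp φ.toLinearMap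
  have hT0 : ∀ f, T0 f = J ^ N * φ f := fun _ => rfl
  let T : Gs x N →ₗ[ℂ] Gs x N := T0.restrict hstab
  have hT : ∀ f : Gs x N, (T f : L) = J ^ N * φ f := fun _ => rfl
  have hTinj : Function.Injective T := by
    intro a b hab
    have h1 := congrArg Subtype.val hab
    rw [hT, hT] at h1
    exact Subtype.ext (φ.toRingHom.injective (mul_left_cancel₀ hJN h1))
  have hnt : Nontrivial (Gs x N) := ⟨⟨g, hg⟩, 0, fun h => hg0 (congrArg Subtype.val h)⟩
  obtain ⟨c, hc⟩ := Module.End.exists_eigenvalue T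
  obtain ⟨g0, hg0e⟩ := hc.exists_hasEigenvector
  have h1 : T g0 = c • g0 := hg0e.apply_eq_smul
  have hg00 : (g0 : L) ≠ 0 := fun h => hg0e.2 (Subtype.ext h)
  have hc0 : c ≠ 0 := by
    rintro rfl
    rw [zero_smul] at h1
    apply hg0e.2
    apply hTinj
    rw [h1, map_zero]
  have h1' : J ^ N * φ g0 = algebraMap ℂ L c * g0 := by
    have h2 := congrArg Subtype.val h1
    rw [hT] at h2
    rw [h2, ← Algebra.smul_def]
    rfl
  have hcL : algebraMap ℂ L c ≠ 0 := by rwa [Ne, map_eq_zero]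
  -- the quotients
  let H0 : Submodule ℂ L := (Gs x N).map (LinearMap.mulRight ℂ (g0 : L)⁻¹)
  let H : Submodule ℂ Mer := H0.map ι.toLinearMap
  have hmem : ∀ f ∈ Gs x N, ι (f / g0) ∈ H := by
    intro f hf
    exact ⟨f / g0, ⟨f, hf, (div_eq_mul_inv _ _).symm⟩, rfl⟩
  have hHs : ∀ h ∈ H, sg q hq0 h ∈ H := by
    rintro _ ⟨_, ⟨f, hf, rfl⟩, rfl⟩
    change sg q hq0 (ι (f * (g0 : L)⁻¹)) ∈ H
    rw [← hφ]
    have h2 : φ (f * (g0 : L)⁻¹) = (c⁻¹ • (J ^ N * φ f)) / g0 := by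
      have hφg : φ (g0 : L) ≠ 0 := by rwa [Ne, map_eq_zero]
      rw [map_mul, map_inv₀, ← div_eq_mul_inv, div_eq_div_iff hφg hg00, Algebra.smul_def, map_inv₀]
      have h3 : (algebraMap ℂ L c)⁻¹ * (J ^ N * φ f) * φ g0 =
          (algebraMap ℂ L c)⁻¹ * φ f * (J ^ N * φ g0) := by ring
      rw [h3, h1']
      field_simp
    rw [h2]
    exact hmem _ ((Gs x N).smul_mem _ (hstab f hf))
  have hHf : FiniteDimensional ℂ H := by
    have h2 : FiniteDimensional ℂ H0 := inferInstance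
    infer_instance
  obtain ⟨m, hm⟩ := laurent hq0 hqr H hHs
  obtain ⟨A, hA⟩ := hm _ (hmem f hf)
  obtain ⟨B, hB⟩ := hm _ (hmem g hg)
  have hzz : im zz ^ m ≠ 0 := pow_ne_zero _ (im_ne zz_ne)
  have hgg : ι (g / g0) ≠ 0 := by
    rw [Ne, map_eq_zero]
    exact div_ne_zero hg0 hg00
  refine ⟨A, B, ?_, ?_⟩
  · rintro rfl
    rw [pol_zero] at hB
    have h2 : im 0 = 0 := map_zero _
    rw [h2] at hB
    exact mul_ne_zero hzz hgg hB
  · rw [← hB, ← hA, mul_assoc, ← map_mul]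
    congr 2
    field_simp

end Pool.Agent.Run7.h718.ND
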