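import Pool.Agent.TH143.GT.Kod

/-!
Holomorphic curves in the projective space which satisfy a `q`-difference equation of the first
order, with polynomial coefficients.
-/

set_option autoImplicit false

namespace Pool.Agent.Run7.h718.ND

/-- The value at `(z, v)` of a polynomial in `v` whose coefficients are polynomials in `z`. -/
noncomputable def pev {n : ℕ} (P : MvPolynomial (Fin (n + 1)) (Polynomial ℂ)) (z : ℂ)
    (v : Fin (n + 1) → ℂ) : ℂ :=
  MvPolynomial.eval₂ (Polynomial.evalRingHom z) v P

/-- The curve with the homogeneous coordinates `f` satisfies a `q`-difference equation of the first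
order: `f (q z)` is proportional to the vector of the `P i (z, f z)`, where the `P i` are forms of
the same degree whose coefficients are polynomials in `z`, not all vanishing along the curve. -/
def DiffEq {n : ℕ} (q : ℂ) (f : ℂ → Fin (n + 1) → ℂ) : Prop :=
  ∃ (e : ℕ) (P : Fin (n + 1) → MvPolynomial (Fin (n + 1)) (Polynomial ℂ)),
    (∀ i, (P i).IsHomogeneous e) ∧ (∃ z i, pev (P i) z (f z) ≠ 0) ∧
    ∀ z i j, f (q * z) i * pev (P j) z (f z) = f (q * z) j * pev (P i) z (f z)

/-- The rational function `r` of the variety with the function field `K` and the generic point `y`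
is, along the curve `f`, a rational function of `z`: if `r` is the quotient of the forms `g1` and
`g0` then `g1 (f z) / g0 (f z) = A z / B z` with polynomials `A` and `B`. -/
def RationalAlong {n : ℕ} {K : Type} [Field K] [Algebra ℂ K] (y : Fin (n + 1) → K)
    (f : ℂ → Fin (n + 1) → ℂ) (r : K) : Prop :=
  ∀ (d : ℕ) (g1 g0 : MvPolynomial (Fin (n + 1)) ℂ), g1.IsHomogeneous d → g0.IsHomogeneous d →
    W602.GT.val y g0 ≠ 0 → r = W602.GT.val y g1 / W602.GT.val y g0 →
    ∃ A B : Polynomial ℂ, B ≠ 0 ∧
      ∀ z, B.eval z * MvPolynomial.eval (f z) g1 = A.eval z * MvPolynomial.eval (f z) g0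

end Pool.Agent.Run7.h718.ND
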