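import Pool.Agent.Run7.h718.ND.Stage
import Pool.Agent.Run7.h718.ND.Defs
import Pool.Agent.Y288.IL.PL

/-!
Entire curves which satisfy a `q`-difference equation of the first order.
-/

set_option autoImplicit false
set_option linter.overlappingInstances false
set_option linter.unusedSectionVars false
set_option maxHeartbeats 1000000
set_option synthInstance.maxHeartbeats 400000

open FF MvPolynomial Pool.Agent.W602.GT Pool.Agent.TH143.GT Pool.Agent.W603.BPR Pool.Agent.W603.BP

namespace Pool.Agent.Run7.h718.ND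

/-- scaling of forms -/
theorem eval₂_scale {R S : Type} [CommRing R] [CommRing S] {n : ℕ} (Φ : R →+* S)
    {P : MvPolynomial (Fin (n + 1)) R} {e : ℕ} (hP : P.IsHomogeneous e) (v : Fin (n + 1) → S)
    (c : S) : eval₂ Φ (fun j => c * v j) P = c ^ e * eval₂ Φ v P := by
  rw [eval₂_eq', eval₂_eq', Finset.mul_sum]
  refine Finset.sum_congr rfl fun α hα => ?_
  have h2 : ∑ a, α a = e := by
    have := hP (mem_support_iff.1 hα)
    rw [← this, Finsupp.weight_apply, Finsupp.sum_fintype _ _ (by simp)]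
    simp
  have h3 : ∏ a, (c * v a) ^ α a = c ^ e * ∏ a, v a ^ α a := by
    rw [← h2, ← Finset.prod_pow_eq_pow_sum, ← Finset.prod_mul_distrib]
    exact Finset.prod_congr rfl fun a _ => mul_pow _ _ _
  rw [h3]; ring

/-- the coordinates as entire functions -/
def fe {n : ℕ} {f : ℂ → Fin (n + 1) → ℂ} (hd : ∀ j, Differentiable ℂ (fun z => f z j))
    (j : Fin (n + 1)) : Ent := ⟨fun z => f z j, hd j⟩

/-- evaluation at a point -/
def evl (z : ℂ) : Ent →+* ℂ := (Pi.evalRingHom (fun _ : ℂ => ℂ) z).comp Ent.toSubring.subtype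

theorem evl_apply (z : ℂ) (F : Ent) : evl z F = F.1 z := rfl

theorem ent_ext {F G : Ent} (h : ∀ z, evl z F = evl z G) : F = G := Subtype.ext (funext h)

/-- polynomials as entire functions -/
noncomputable def phi : Polynomial ℂ →+* Ent := (Polynomial.aeval zz : Polynomial ℂ →ₐ[ℂ] Ent)

theorem phi_apply (P : Polynomial ℂ) : phi P = pol P := (pol_eq_aeval P).symm

section

variable {n : ℕ} {f : ℂ → Fin (n + 1) → ℂ} (hd : ∀ j, Differentiable ℂ (fun z => f z j))

theorem eval_form (G : MvPolynomial (Fin (n + 1)) ℂ) (z : ℂ) :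
    evl z (aeval (fe hd) G) = eval (f z) G := by
  rw [aeval_def, eval₂_comp_left (evl z)]
  have h1 : (evl z).comp (algebraMap ℂ Ent) = RingHom.id ℂ := rfl
  rw [h1]
  rfl

theorem im_form (G : MvPolynomial (Fin (n + 1)) ℂ) :
    W602.GT.val (fun j => im (fe hd j)) G = im (aeval (fe hd) G) :=
  (MvPolynomial.comp_aeval_apply (f := fe hd) (IsScalarTower.toAlgHom ℂ Ent Mer) G).symm

theorem eval_pe (P : MvPolynomial (Fin (n + 1)) (Polynomial ℂ)) (z : ℂ) :
    evl z (eval₂ phi (fe hd) P) = pev P z (f z) := by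
  rw [eval₂_comp_left (evl z)]
  have h1 : (evl z).comp phi = Polynomial.evalRingHom z := by
    ext
    · rw [RingHom.comp_apply, RingHom.comp_apply, phi_apply, evl_apply, pol_apply]
      rfl
    · rw [RingHom.comp_apply, phi_apply, evl_apply, pol_apply]
      rfl
  rw [h1]
  rfl

theorem im_pe (P : MvPolynomial (Fin (n + 1)) (Polynomial ℂ)) :
    im (eval₂ phi (fe hd) P) = eval₂ ((algebraMap Ent Mer).comp phi) (fun j => im (fe hd j)) P :=
  eval₂_comp_left (algebraMap Ent Mer) phi (fe hd) P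

end

section

variable {n w : ℕ} {K : Type} [Field K] [Algebra ℂ K] {y : Fin (n + 1) → K}
  {f : ℂ → Fin (n + 1) → ℂ}

/-- the embedding of the function field -/
theorem exists_emb (hgp : GenPt f Set.univ K w y) (hd : ∀ j, Differentiable ℂ (fun z => f z j)) :
    ∃ ι : K →ₐ[ℂ] Mer, ∀ (d : ℕ) (g1 g0 : MvPolynomial (Fin (n + 1)) ℂ),
      g1.IsHomogeneous d → g0.IsHomogeneous d → W602.GT.val y g0 ≠ 0 →
      ι (W602.GT.val y g1 / W602.GT.val y g0) =
        im (aeval (fe hd) g1) / im (aeval (fe hd) g0) ∧ aeval (fe hd) g0 ≠ 0 := by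
  have hrel : ∀ G : MvPolynomial (Fin (n + 1)) ℂ, IsForm G →
      (W602.GT.val y G = 0 ↔ aeval (fe hd) G = 0) := by
    intro G hG
    rw [hgp.rel G hG]
    constructor
    · intro h
      apply ent_ext
      intro z
      rw [eval_form, h z (Set.mem_univ z), map_zero]
    · intro h z _
      rw [← eval_form hd, h, map_zero]
  obtain ⟨ι, hι⟩ := emb_gen (k := ℂ) (K := K) (L := Mer) (y := y)
    (y' := fun j => im (fe hd j)) hgp.ne hgp.gen (by
      intro G hG
      rw [hrel G hG, im_form]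
      constructor
      · intro h
        rw [h]
        exact map_zero _
      · intro h
        by_contra h0
        exact im_ne h0 h)
  refine ⟨ι, fun d g1 g0 h1 h0 hn => ⟨?_, fun h => hn ((hrel g0 ⟨d, h0⟩).2 h)⟩⟩
  rw [hι d g1 g0 h1 h0 hn, im_form, im_form]

theorem val_X (i : Fin (n + 1)) : W602.GT.val y (X i : MvPolynomial (Fin (n + 1)) ℂ) = y i := by
  unfold W602.GT.val
  rw [aeval_X]

theorem aeval_fe_X (hd : ∀ j, Differentiable ℂ (fun z => f z j)) (i : Fin (n + 1)) :
    aeval (fe hd) (X i : MvPolynomial (Fin (n + 1)) ℂ) = fe hd i := aeval_X _ _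

/-- the image of the function field under the substitution -/
theorem stable_of_eq (hgp : GenPt f Set.univ K w y)
    (hd : ∀ j, Differentiable ℂ (fun z => f z j)) {q : ℂ} (hq0 : q ≠ 0) (hDE : DiffEq q f)
    {ι : K →ₐ[ℂ] Mer} (hι : ∀ (d : ℕ) (g1 g0 : MvPolynomial (Fin (n + 1)) ℂ),
      g1.IsHomogeneous d → g0.IsHomogeneous d → W602.GT.val y g0 ≠ 0 →
      ι (W602.GT.val y g1 / W602.GT.val y g0) =
        im (aeval (fe hd) g1) / im (aeval (fe hd) g0) ∧ aeval (fe hd) g0 ≠ 0) (r : K) :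
    sg q hq0 (ι r) ∈ IntermediateField.adjoin ι.fieldRange {im zz} := by
  obtain ⟨e, P, hP, ⟨z0, i0, hz0⟩, heq⟩ := hDE
  obtain ⟨A, hA⟩ : ∃ A : IntermediateField ι.fieldRange Mer,
      A = IntermediateField.adjoin ι.fieldRange {im zz} := ⟨_, rfl⟩
  rw [← hA]
  have hιX : ∀ i j, y j ≠ 0 → ι (y i / y j) = im (fe hd i) / im (fe hd j) ∧ fe hd j ≠ 0 := by
    intro i j hj
    have h1 := hι 1 (X i) (X j) (isHomogeneous_X _ _) (isHomogeneous_X _ _) (by rwa [val_X])
    rwa [val_X, val_X, aeval_fe_X, aeval_fe_X] at h1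
  obtain ⟨k0, hk0⟩ := Function.ne_iff.1 hgp.ne
  have hk0' : y k0 ≠ 0 := hk0
  -- the values of the `P i`
  let pe : Fin (n + 1) → Ent := fun i => eval₂ phi (fe hd) (P i)
  have hpe : ∀ i j, cmp q (fe hd i) * pe j = cmp q (fe hd j) * pe i := by
    intro i j
    apply ent_ext
    intro z
    rw [map_mul, map_mul, eval_pe, eval_pe]
    exact heq z i j
  have hpe0 : pe i0 ≠ 0 := by
    intro h0
    apply hz0
    rw [← eval_pe hd]
    change evl z0 (pe i0) = 0
    rw [h0, map_zero]
  have hpj : ∀ j, y j ≠ 0 → pe j ≠ 0 := by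
    intro j hj h0
    have h1 := hpe j i0
    rw [h0, mul_zero] at h1
    have h2 : cmp q (fe hd j) ≠ 0 := by
      intro h3
      exact (hιX j j hj).2 (cmp_inj hq0 (h3.trans (map_zero _).symm))
    exact mul_ne_zero h2 hpe0 h1
  -- the ratios
  have hr : ∀ i, im (fe hd i) / im (fe hd k0) ∈ A := by
    intro i
    rw [← (hιX i k0 hk0').1]
    exact A.algebraMap_mem ⟨ι (y i / y k0), ⟨_, rfl⟩⟩
  have hcoef : ∀ C : Polynomial ℂ, (algebraMap Ent Mer).comp phi C ∈ A := by
    intro C
    have h1 : (algebraMap Ent Mer).comp phi C = im (pol C) := by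
      rw [RingHom.comp_apply, phi_apply]
    rw [h1, im_pol, Polynomial.aeval_eq_sum_range]
    refine sum_mem fun i _ => ?_
    rw [Algebra.smul_def]
    refine mul_mem (A.algebraMap_mem (algebraMap ℂ ι.fieldRange (C.coeff i))) (pow_mem ?_ i)
    rw [hA]
    exact IntermediateField.subset_adjoin _ _ rfl
  have hval : ∀ i, ∃ a ∈ A, im (pe i) = im (fe hd k0) ^ e * a := by
    intro i
    refine ⟨eval₂ ((algebraMap Ent Mer).comp phi) (fun j => im (fe hd j) / im (fe hd k0)) (P i),
      eval₂_mem (s := A) (fun m _ => hcoef _) hr, ?_⟩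
    have h1 : im (pe i) = eval₂ ((algebraMap Ent Mer).comp phi) (fun j => im (fe hd j)) (P i) :=
      im_pe hd (P i)
    have h2 : im (fe hd k0) ≠ 0 := im_ne (hιX k0 k0 hk0').2
    rw [h1, ← eval₂_scale _ (hP i)]
    congr 1
    funext j
    field_simp
  -- the generators
  have hgen : ∀ i j, y j ≠ 0 → sg q hq0 (ι (y i / y j)) ∈ A := by
    intro i j hj
    have h1 : im (pe j) ≠ 0 := im_ne (hpj j hj)
    have h2 : im (cmp q (fe hd j)) ≠ 0 := by
      refine im_ne fun h3 => ?_
      exact (hιX j j hj).2 (cmp_inj hq0 (h3.trans (map_zero _).symm))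
    have h3 : sg q hq0 (ι (y i / y j)) = im (pe i) / im (pe j) := by
      rw [(hιX i j hj).1, map_div₀, sg_im, sg_im, div_eq_div_iff h2 h1, ← im_mul, ← im_mul,
        hpe i j]
      ring_nf
    obtain ⟨a, ha, hai⟩ := hval i
    obtain ⟨b, hb, hbj⟩ := hval j
    have h4 : im (fe hd k0) ^ e ≠ 0 := pow_ne_zero _ (im_ne (hιX k0 k0 hk0').2)
    rw [h3, hai, hbj, mul_div_mul_left _ _ h4]
    exact div_mem ha hb
  have hle : (⊤ : IntermediateField ℂ K) ≤ (A.restrictScalars ℂ).comap ((sg q hq0).comp ι) := by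
    rw [← hgp.gen]
    unfold coords
    rw [IntermediateField.adjoin_le_iff]
    rintro _ ⟨i, j, hj, rfl⟩
    exact hgen i j hj
  exact hle (IntermediateField.mem_top (x := r))

theorem ess_of_coords (h : coords ℂ y = ⊤) : Algebra.EssFiniteType ℂ K := by
  rw [← IntermediateField.fg_top_iff, ← h]
  refine IntermediateField.fg_adjoin_of_finite ?_
  have h1 : {z : K | ∃ i j, y j ≠ 0 ∧ z = y i / y j} ⊆
      Set.range fun p : Fin (n + 1) × Fin (n + 1) => y p.1 / y p.2 := by
    rintro _ ⟨i, j, -, rfl⟩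
    exact ⟨(i, j), rfl⟩
  exact (Set.finite_range _).subset h1

/-- the dimension of the closure of a nonconstant curve -/
theorem dim_pos (hgp : GenPt f Set.univ K w y) (hd : ∀ j, Differentiable ℂ (fun z => f z j))
    (hnc : ∃ z w, ∀ c : ℂ, f z ≠ c • f w) (hne : ∀ z, f z ≠ 0) : 0 < w := by
  rcases Nat.eq_zero_or_pos w with hw | hw
  · exfalso
    have halg : Algebra.IsAlgebraic ℂ K := by
      rw [← trdeg_eq_zero_iff, hgp.dim, hw, Nat.cast_zero]
    obtain ⟨k0, hk0⟩ := Function.ne_iff.1 hgp.ne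
    have hk0' : y k0 ≠ 0 := hk0
    have hc : ∀ i, ∃ c : ℂ, ∀ z, f z i = c * f z k0 := by
      intro i
      obtain ⟨c, hc⟩ := (IsAlgClosed.algebraMap_bijective_of_isIntegral (k := ℂ) (K := K)).2
        (y i / y k0)
      refine ⟨c, fun z => ?_⟩
      have h1 : W602.GT.val y (X i - C c * X k0 : MvPolynomial (Fin (n + 1)) ℂ) = 0 := by
        unfold W602.GT.val
        rw [map_sub, map_mul, aeval_X, aeval_X, aeval_C, hc]
        field_simp
        ring
      have h2 : IsForm (X i - C c * X k0 : MvPolynomial (Fin (n + 1)) ℂ) :=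
        ⟨1, (isHomogeneous_X _ _).sub (by simpa using (isHomogeneous_C _ c).mul (isHomogeneous_X ℂ k0))⟩
      have h3 := (hgp.rel _ h2).1 h1 z (Set.mem_univ z)
      rw [map_sub, map_mul, eval_X, eval_X, eval_C] at h3
      linear_combination h3
    choose c hc using hc
    obtain ⟨s, t, hst⟩ := hnc
    have ht : f t k0 ≠ 0 := by
      intro h0
      apply hne t
      funext i
      rw [hc i t, h0, mul_zero]
      rfl
    apply hst (f s k0 / f t k0)
    funext i
    rw [Pi.smul_apply, smul_eq_mul, hc i s, hc i t]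
    field_simp
  · exact hw

end

end Pool.Agent.Run7.h718.ND
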