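import Pool.Agent.N145.SX.PullK
import Pool.Agent.W602.GT.Defs
import Pool.Agent.W73.PG.PULL

/-!
The space of the pluricanonical forms and its endomorphism given by a rational self-map.
-/

set_option autoImplicit false
set_option linter.overlappingInstances false
set_option linter.unusedSectionVars false

open FF Pool.Agent.W602.GT

namespace Pool.Agent.Run7.h718.ND

section

variable {K : Type} [Field K] [Algebra ℂ K] {w : ℕ}

/-- the form `f (dx) ^ N` -/
noncomputable def frm (x : Fin w → K) (N : ℕ) (f : K) (D : Fin w → Derivation ℂ K K) : K :=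
  (Matrix.of fun i j => D i (x j)).det ^ N * f

theorem sum_app {n : ℕ} (g : Fin n → Derivation ℂ K K) (f : K) : (∑ c, g c) f = ∑ c, g c f :=
  Pool.Agent.W73.PG.PULL.sum_app Finset.univ g f

theorem sum_smul_app {n : ℕ} (a : Fin n → K) (g : Fin n → Derivation ℂ K K) (f : K) :
    (∑ c, a c • g c) f = ∑ c, a c * g c f := sum_app _ f

theorem frm_pluri (x : Fin w → K) (N : ℕ) (f : K) : IsPluri N (frm x N f) := by
  intro A D
  unfold frm
  have h1 : (Matrix.of fun i j => (∑ l, A i l • D l) (x j)) =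
      A * (Matrix.of fun i j => D i (x j)) := by
    ext i j
    rw [Matrix.of_apply, Matrix.mul_apply, sum_smul_app]
    rfl
  rw [h1, Matrix.det_mul, mul_pow, mul_assoc]

theorem frm_self {x : Fin w → K} {E : Fin w → Derivation ℂ K K}
    (hE : ∀ i j, E i (x j) = if i = j then 1 else 0) (N : ℕ) (f : K) : frm x N f E = f := by
  unfold frm
  have h1 : (Matrix.of fun i j => E i (x j)) = (1 : Matrix (Fin w) (Fin w) K) := by
    ext i j
    rw [Matrix.of_apply, hE, Matrix.one_apply]
  rw [h1, Matrix.det_one, one_pow, one_mul]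

theorem eq_frm {x : Fin w → K} (hx : IsTranscendenceBasis ℂ x) {E : Fin w → Derivation ℂ K K}
    (hE : ∀ i j, E i (x j) = if i = j then 1 else 0) {N : ℕ}
    {ω : (Fin w → Derivation ℂ K K) → K} (hω : IsPluri N ω) : ω = frm x N (ω E) := by
  funext D
  have h1 := hω (Matrix.of fun i j => D i (x j)) E
  have h2 : (fun i => ∑ j, (Matrix.of fun i j => D i (x j)) i j • E j) = D := by
    funext i
    exact Pool.Agent.W73.PG.PULL.expand x hx E hE (D i)
  rw [h2] at h1
  exact h1

/-- the functions `f` such that `f (dx) ^ N` is regular -/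
def Gs (x : Fin w → K) (N : ℕ) : Submodule ℂ K where
  carrier := {f | ∀ P : Place ℂ K, Divisorial w P → RegAt P (frm x N f)}
  zero_mem' := by
    intro P _ D _
    unfold frm
    rw [mul_zero]
    exact P.reg_zero
  add_mem' := by
    intro a b ha hb P hP D hD
    have h1 := P.reg_add (ha P hP D hD) (hb P hP D hD)
    unfold frm at h1 ⊢
    rwa [← mul_add] at h1
  smul_mem' := by
    intro c a ha P hP D hD
    have h1 := P.reg_mul (P.reg_const c) (ha P hP D hD)
    unfold frm at h1 ⊢
    rw [Algebra.smul_def]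
    have h2 : (Matrix.of fun i j => D i (x j)).det ^ N * (algebraMap ℂ K c * a) =
        algebraMap ℂ K c * ((Matrix.of fun i j => D i (x j)).det ^ N * a) := by ring
    rw [h2]
    exact h1

theorem mem_Gs {x : Fin w → K} {N : ℕ} {f : K} : f ∈ Gs x N ↔
    ∀ P : Place ℂ K, Divisorial w P → RegAt P (frm x N f) := Iff.rfl

theorem mem_Gs_of {x : Fin w → K} (hx : IsTranscendenceBasis ℂ x) {E : Fin w → Derivation ℂ K K}
    (hE : ∀ i j, E i (x j) = if i = j then 1 else 0) {N : ℕ}
    {ω : (Fin w → Derivation ℂ K K) → K} (hω : IsPluri N ω)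
    (hr : ∀ P : Place ℂ K, Divisorial w P → RegAt P ω) : ω E ∈ Gs x N := by
  rw [eq_frm hx hE hω] at hr
  exact hr

end

section

variable {K R : Type} [Field K] [Field R] [Algebra ℂ K] [Algebra ℂ R] {w : ℕ}

/-- the chain rule -/
theorem chain {x : Fin w → K} {xR : Fin w → R} (hxR : IsTranscendenceBasis ℂ xR)
    {ER : Fin w → Derivation ℂ R R} (hER : ∀ i j, ER i (xR j) = if i = j then 1 else 0)
    (φ : K →ₐ[ℂ] R) (D : Fin w → Derivation ℂ R R) :
    (Matrix.of fun i j => D i (φ (x j))).det = (Matrix.of fun i j => D i (xR j)).det *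
      (Matrix.of fun i j => ER i (φ (x j))).det := by
  rw [← Matrix.det_mul]
  congr 1
  ext i j
  rw [Matrix.of_apply, Matrix.mul_apply]
  have h1 := congrArg (fun F : Derivation ℂ R R => F (φ (x j)))
    (Pool.Agent.W73.PG.PULL.expand xR hxR ER hER (D i))
  rw [← h1]
  exact sum_smul_app _ _ _

/-- **Pull-backs.** -/
theorem pull_Gs [Algebra.EssFiniteType ℂ K] (hK : Algebra.trdeg ℂ K = w)
    (hR : Algebra.trdeg ℂ R = w) {x : Fin w → K} (hx : IsTranscendenceBasis ℂ x)
    {E : Fin w → Derivation ℂ K K} (hE : ∀ i j, E i (x j) = if i = j then 1 else 0)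
    {xR : Fin w → R} (hxR : IsTranscendenceBasis ℂ xR)
    {ER : Fin w → Derivation ℂ R R} (hER : ∀ i j, ER i (xR j) = if i = j then 1 else 0)
    (φ : K →ₐ[ℂ] R) {N : ℕ} {f : K} (hf : f ∈ Gs x N) :
    (Matrix.of fun i j => ER i (φ (x j))).det ^ N * φ f ∈ Gs xR N := by
  intro Q hQ D hD
  let iA : Algebra K R := φ.toRingHom.toAlgebra
  have hst : IsScalarTower ℂ K R := IsScalarTower.of_algebraMap_eq fun c => (φ.commutes c).symm
  have h1 := Pool.Agent.N145.SX.pull_pluri (K := K) (R := R) hK hR hx hE (frm_pluri x N f) hf Q hQ hD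
  rw [frm_self hE] at h1
  have h2 : (Matrix.of fun i j => D i (algebraMap K R (x j)) : Matrix (Fin w) (Fin w) R) =
      Matrix.of fun i j => D i (φ (x j)) := rfl
  have h3 : algebraMap K R f = φ f := rfl
  rw [h2, h3, chain hxR hER φ D] at h1
  unfold frm
  rw [← mul_assoc, ← mul_pow]
  exact h1

/-- the Jacobian determinant of a dominant map is not zero -/
theorem jac_ne {x : Fin w → R} (hx : IsTranscendenceBasis ℂ x) {xR : Fin w → R}
    (hxR : IsTranscendenceBasis ℂ xR)
    {ER : Fin w → Derivation ℂ R R} (hER : ∀ i j, ER i (xR j) = if i = j then 1 else 0) :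
    (Matrix.of fun i j => ER i (x j)).det ≠ 0 := by
  choose E hE using fun i : Fin w => exists_der x hx fun j => if i = j then 1 else 0
  intro h0
  have h1 := chain (x := x) hxR hER (AlgHom.id ℂ R) E
  have h2 : (Matrix.of fun i j => E i ((AlgHom.id ℂ R) (x j))) = (1 : Matrix (Fin w) (Fin w) R) := by
    ext i j
    rw [Matrix.of_apply, Matrix.one_apply]
    exact hE i j
  rw [h2, Matrix.det_one] at h1
  have h3 : (Matrix.of fun i j => ER i ((AlgHom.id ℂ R) (x j))).det = 0 := h0
  rw [h3, mul_zero] at h1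
  exact one_ne_zero h1

end

end Pool.Agent.Run7.h718.ND
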