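import Pool.Agent.Run7.h718.ND.Ring

/-!
Finite-dimensional spaces of meromorphic functions which are stable under the substitution of `q z`
consist of Laurent polynomials.
-/

set_option autoImplicit false

namespace Pool.Agent.Run7.h718.ND

open Set Filter Topology

theorem im_smul (c : ℂ) (f : Ent) : im (c • f) = c • im f :=
  map_smul (IsScalarTower.toAlgHom ℂ Ent Mer) c f

/-- a common denominator -/
theorem exists_den (H : Submodule ℂ Mer) [FiniteDimensional ℂ H] :
    ∃ D : Ent, D ≠ 0 ∧ ∀ h ∈ H, ∃ a : Ent, im D * h = im a := by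
  obtain ⟨s, hs⟩ := (Module.Finite.iff_fg (N := H)).1 inferInstance
  obtain ⟨D, hD⟩ := IsLocalization.exist_integer_multiples_of_finset (nonZeroDivisors Ent) s
  refine ⟨D, nonZeroDivisors.ne_zero D.2, fun h hh => ?_⟩
  rw [← hs] at hh
  induction hh using Submodule.span_induction with
  | mem x hx =>
    obtain ⟨a, ha⟩ := hD x hx
    refine ⟨a, ?_⟩
    rw [Algebra.smul_def] at ha
    exact ha.symm
  | zero => exact ⟨0, by rw [mul_zero]; exact (map_zero _).symm⟩
  | add x y _ _ hx hy =>
    obtain ⟨a, ha⟩ := hx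
    obtain ⟨b, hb⟩ := hy
    exact ⟨a + b, by rw [mul_add, ha, hb]; exact (map_add _ _ _).symm⟩
  | smul c x _ hx =>
    obtain ⟨a, ha⟩ := hx
    refine ⟨c • a, ?_⟩
    rw [mul_smul_comm, ha, im_smul]

theorem im_mul (f g : Ent) : im (f * g) = im f * im g := map_mul _ _ _

theorem im_pow (f : Ent) (m : ℕ) : im (f ^ m) = im f ^ m := map_pow _ _ _

theorem cmp_cmp_inv {q : ℂ} (hq : q ≠ 0) (f : Ent) : cmp q (cmp q⁻¹ f) = f := by
  apply Subtype.ext
  funext z
  rw [cmp_apply, cmp_apply, inv_mul_cancel_left₀ hq]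

theorem ent_mul_apply (f g : Ent) (z : ℂ) : (f * g).1 z = f.1 z * g.1 z := rfl

theorem sg_inj {q : ℂ} (hq : q ≠ 0) : Function.Injective (sg q hq) := (sg q hq).toRingHom.injective

theorem zz_pow_apply (m : ℕ) (z : ℂ) : (zz ^ m).1 z = z ^ m := by
  induction m with
  | zero => rfl
  | succ m ih => rw [pow_succ, ent_mul_apply, ih, pow_succ]; rfl

theorem not_ev_zero {b : ℂ → ℂ} (hb : Differentiable ℂ b) (hb0 : ∃ z, b z ≠ 0) (z : ℂ) :
    ¬ ∀ᶠ x in 𝓝 z, b x = 0 := by
  intro h
  obtain ⟨z1, hz1⟩ := hb0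
  have h1 : AnalyticOnNhd ℂ b univ := fun z _ => hb.analyticAt z
  exact hz1 (h1.eqOn_zero_of_preconnected_of_eventuallyEq_zero isPreconnected_univ
    (mem_univ z) h (mem_univ z1))

/-- division by a power of `z` -/
theorem factor_zero {D : Ent} (hD : D ≠ 0) : ∃ (m : ℕ) (D0 : Ent), D0.1 0 ≠ 0 ∧ D = zz ^ m * D0 := by
  classical
  have hb : Differentiable ℂ D.1 := D.2
  have hb0 : ∃ z, D.1 z ≠ 0 := by
    by_contra h
    push Not at h
    exact hD (Subtype.ext (funext h))
  obtain ⟨m, g, hg, hg0, hbg⟩ := (hb.analyticAt 0).exists_eventuallyEq_pow_smul_nonzero_iff.2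
    (not_ev_zero hb hb0 0)
  let c : ℂ → ℂ := fun z => if z = 0 then g 0 else D.1 z / z ^ m
  have hc1 : c =ᶠ[𝓝 0] g := by
    filter_upwards [hbg] with z hz
    by_cases h : z = 0
    · simp only [c, if_pos h]
      rw [h]
    · simp only [c, if_neg h]
      rw [hz, smul_eq_mul, sub_zero, mul_div_assoc, mul_comm, div_mul_cancel₀]
      exact pow_ne_zero _ h
  have hbc : ∀ z, D.1 z = z ^ m * c z := by
    intro z
    by_cases h : z = 0
    · have h2 := hbg.self_of_nhds
      rw [smul_eq_mul, sub_zero] at h2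
      simp only [c, if_pos h]
      rw [h]
      exact h2
    · simp only [c, if_neg h]
      rw [mul_div_cancel₀]
      exact pow_ne_zero _ h
  refine ⟨m, ⟨c, ?_⟩, ?_, Subtype.ext (funext fun z => ?_)⟩
  · intro z
    by_cases h : z = 0
    · rw [h]
      exact (hg.differentiableAt).congr_of_eventuallyEq hc1
    · have h2 : c =ᶠ[𝓝 z] fun z => D.1 z / z ^ m := by
        filter_upwards [isOpen_ne.mem_nhds h] with x hx
        exact if_neg hx
      refine DifferentiableAt.congr_of_eventuallyEq ?_ h2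
      exact (hb z).div (by fun_prop) (pow_ne_zero _ h)
  · change c 0 ≠ 0
    rw [hc1.self_of_nhds]
    exact hg0
  · rw [ent_mul_apply, zz_pow_apply]
    exact hbc z

section

variable {q : ℂ} (hq0 : q ≠ 0) (H : Submodule ℂ Mer)

/-- the common denominators -/
def Den (d : Ent) : Prop := ∀ h ∈ H, ∃ a : Ent, im d * h = im a

variable {H} in
theorem den_cmp (hsurj : ∀ h ∈ H, ∃ h' ∈ H, sg q hq0 h' = h) {d : Ent} (hd : Den H d) :
    Den H (cmp q d) := by
  intro h hh
  obtain ⟨h', hh', rfl⟩ := hsurj h hh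
  obtain ⟨a, ha⟩ := hd h' hh'
  exact ⟨cmp q a, by rw [← sg_im hq0, ← sg_im hq0, ← map_mul, ha]⟩

variable {H} in
theorem den_cmp_inv (hs : ∀ h ∈ H, sg q hq0 h ∈ H) {d : Ent} (hd : Den H d) :
    Den H (cmp q⁻¹ d) := by
  intro h hh
  obtain ⟨a, ha⟩ := hd _ (hs h hh)
  refine ⟨cmp q⁻¹ a, sg_inj hq0 ?_⟩
  rw [map_mul, sg_im, sg_im, cmp_cmp_inv hq0, cmp_cmp_inv hq0, ha]

variable {H} in
theorem den_local (hqr : ∀ n : ℕ, 0 < n → q ^ n ≠ 1) [FiniteDimensional ℂ H]
    (hs : ∀ h ∈ H, sg q hq0 h ∈ H) (hsurj : ∀ h ∈ H, ∃ h' ∈ H, sg q hq0 h' = h) {c : ℂ}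
    (hc : c ≠ 0) : ∃ d : Ent, Den H d ∧ d.1 c ≠ 0 := by
  by_contra hno
  push Not at hno
  obtain ⟨D, hD0, hD⟩ := exists_den H
  apply hD0
  have h1 : ∀ (k : ℕ) (d : Ent), Den H d → d.1 (q ^ k * c) = 0 := by
    intro k
    induction k with
    | zero =>
      intro d hd
      rw [pow_zero, one_mul]
      exact hno d hd
    | succ k ih =>
      intro d hd
      have h2 := ih _ (den_cmp hq0 hsurj hd)
      rwa [cmp_apply, ← mul_assoc, ← pow_succ'] at h2
  have h2 : ∀ (k : ℕ) (d : Ent), Den H d → d.1 (q⁻¹ ^ k * c) = 0 := by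
    intro k
    induction k with
    | zero =>
      intro d hd
      rw [pow_zero, one_mul]
      exact hno d hd
    | succ k ih =>
      intro d hd
      have h2 := ih _ (den_cmp_inv hq0 hs hd)
      rwa [cmp_apply, ← mul_assoc, ← pow_succ'] at h2
  exact orbit_zero hq0 hqr hc (fun k => h1 k D hD) fun k => h2 k D hD

variable {H} in
/-- the poles are at the origin -/
theorem entire_of_den (hloc : ∀ c : ℂ, c ≠ 0 → ∃ d : Ent, Den H d ∧ d.1 c ≠ 0)
    [FiniteDimensional ℂ H] : ∃ m : ℕ, ∀ h ∈ H, ∃ G : Ent, im zz ^ m * h = im G := by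
  classical
  obtain ⟨D, hD0, hD⟩ := exists_den H
  obtain ⟨m, D0, hD00, hDm⟩ := factor_zero hD0
  refine ⟨m, fun h hh => ?_⟩
  obtain ⟨a, ha⟩ := hD h hh
  choose! d hd1 hd2 using hloc
  have hda : ∀ c : ℂ, c ≠ 0 → ∃ b : Ent, im (d c) * h = im b := fun c hc => hd1 c hc h hh
  choose! b hb using hda
  have hcross : ∀ {d1 d2 a1 a2 : Ent}, im d1 * h = im a1 → im d2 * h = im a2 →
      ∀ z, a1.1 z * d2.1 z = a2.1 z * d1.1 z := by
    intro d1 d2 a1 a2 e1 e2 z
    have h3 : a1 * d2 = a2 * d1 := by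
      apply im_inj
      rw [im_mul, im_mul, ← e1, ← e2]
      ring
    exact congrFun (congrArg Subtype.val h3) z
  let G : ℂ → ℂ := fun z => if z = 0 then a.1 0 / D0.1 0 else z ^ m * ((b z).1 z / (d z).1 z)
  have hG1 : ∀ z, z ≠ 0 → ∀ d1 a1 : Ent, im d1 * h = im a1 → d1.1 z ≠ 0 →
      G z = z ^ m * (a1.1 z / d1.1 z) := by
    intro z hz d1 a1 e1 hd1z
    simp only [G, if_neg hz]
    congr 1
    rw [div_eq_div_iff (hd2 z hz) hd1z]
    exact hcross (hb z hz) e1 z
  have hGd : Differentiable ℂ G := by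
    intro z
    by_cases hz : z = 0
    · have h1 : G =ᶠ[𝓝 0] fun z => a.1 z / D0.1 z := by
        have hcont : ContinuousAt D0.1 0 := (show Differentiable ℂ D0.1 from D0.2).continuous.continuousAt
        filter_upwards [hcont.eventually_ne hD00] with x hx
        by_cases h0 : x = 0
        · simp only [G, if_pos h0]
          rw [h0]
        · have hxm : x ^ m ≠ 0 := pow_ne_zero _ h0
          have hDx : D.1 x = x ^ m * D0.1 x := by
            rw [hDm, ent_mul_apply, zz_pow_apply]
          rw [hG1 x h0 D a ha (by rw [hDx]; exact mul_ne_zero hxm hx), hDx]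
          field_simp
      rw [hz]
      refine DifferentiableAt.congr_of_eventuallyEq ?_ h1
      exact ((show Differentiable ℂ a.1 from a.2) 0).div
        ((show Differentiable ℂ D0.1 from D0.2) 0) hD00
    · have hcont : ContinuousAt (d z).1 z :=
        (show Differentiable ℂ (d z).1 from (d z).2).continuous.continuousAt
      have h1 : G =ᶠ[𝓝 z] fun x => x ^ m * ((b z).1 x / (d z).1 x) := by
        filter_upwards [hcont.eventually_ne (hd2 z hz), isOpen_ne.mem_nhds hz] with x hx hx0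
        exact hG1 x hx0 _ _ (hb z hz) hx
      refine DifferentiableAt.congr_of_eventuallyEq ?_ h1
      exact (by fun_prop : DifferentiableAt ℂ (fun x : ℂ => x ^ m) z).mul
        (((show Differentiable ℂ (b z).1 from (b z).2) z).div
        ((show Differentiable ℂ (d z).1 from (d z).2) z) (hd2 z hz))
  refine ⟨⟨G, hGd⟩, ?_⟩
  -- `D G = z ^ m a`
  have h2 : D * ⟨G, hGd⟩ = zz ^ m * a := by
    apply Subtype.ext
    funext z
    rw [ent_mul_apply, ent_mul_apply, zz_pow_apply]
    change D.1 z * G z = _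
    by_cases hz : z = 0
    · rw [hDm, ent_mul_apply, zz_pow_apply]
      simp only [G, if_pos hz]
      rw [hz]
      field_simp
    · rw [hG1 z hz _ _ (hb z hz) (hd2 z hz)]
      have h3 := hcross ha (hb z hz) z
      have h4 := hd2 z hz
      have h5 : D.1 z * (z ^ m * ((b z).1 z / (d z).1 z)) =
          (D.1 z * z ^ m * (b z).1 z) / (d z).1 z := by ring
      rw [h5, div_eq_iff h4]
      linear_combination -(z ^ m) * h3
  have h3 : im D ≠ 0 := im_ne hD0
  apply mul_left_cancel₀ h3
  rw [← im_mul, h2, im_mul, im_pow, ← ha]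
  ring

end

/-- an entire function with finitely many nonzero Taylor coefficients is a polynomial -/
theorem pol_of_taylor (G : Ent) (N : ℕ) (h : ∀ k, N ≤ k → iteratedDeriv k G.1 0 = 0) :
    ∃ P : Polynomial ℂ, G = pol P := by
  refine ⟨∑ k ∈ Finset.range N, Polynomial.C (((k.factorial : ℂ))⁻¹ * iteratedDeriv k G.1 0) *
    Polynomial.X ^ k, Subtype.ext (funext fun z => ?_)⟩
  have h1 := Complex.hasSum_taylorSeries_of_entire (show Differentiable ℂ G.1 from G.2) 0 z
  have h2 := hasSum_sum_of_ne_finset_zero (f := fun n : ℕ => ((n.factorial : ℂ))⁻¹ •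
    (z - 0) ^ n • iteratedDeriv n G.1 0) (s := Finset.range N) (L := SummationFilter.unconditional ℕ) (by
      intro k hk
      rw [h k (by simpa using hk), smul_zero, smul_zero])
  rw [h1.unique h2, pol_apply, Polynomial.eval_finsetSum]
  refine Finset.sum_congr rfl fun k _ => ?_
  simp only [Polynomial.eval_mul, Polynomial.eval_C, Polynomial.eval_pow, Polynomial.eval_X,
    smul_eq_mul, sub_zero]
  ring

/-- entire solutions of `q`-difference equations with constant coefficients -/
theorem pol_of_rel {q : ℂ} (hq0 : q ≠ 0) (hqr : ∀ n : ℕ, 0 < n → q ^ n ≠ 1) {p : Polynomial ℂ}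
    (hp : p ≠ 0) (G : Ent)
    (h : ∀ z, ∑ j ∈ Finset.range (p.natDegree + 1), p.coeff j * G.1 (q ^ j * z) = 0) :
    ∃ P : Polynomial ℂ, G = pol P := by
  have hG : Differentiable ℂ G.1 := G.2
  have hcd : ContDiff ℂ ⊤ G.1 := hG.contDiff
  have hinj : Function.Injective fun k : ℕ => q ^ k := by
    intro a b hab
    have h3 : q ^ a = q ^ b := hab
    rcases lt_trichotomy a b with h | h | h
    · exfalso
      apply hqr (b - a) (by omega)
      have h4 : q ^ b = q ^ a * q ^ (b - a) := by rw [← pow_add]; congr 1; omega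
      rw [h4] at h3
      have h5 : q ^ a * q ^ (b - a) = q ^ a * 1 := by rw [mul_one]; exact h3.symm
      exact mul_left_cancel₀ (pow_ne_zero _ hq0) h5
    · exact h
    · exfalso
      apply hqr (a - b) (by omega)
      have h4 : q ^ a = q ^ b * q ^ (a - b) := by rw [← pow_add]; congr 1; omega
      rw [h4] at h3
      have h5 : q ^ b * q ^ (a - b) = q ^ b * 1 := by rw [mul_one]; exact h3
      exact mul_left_cancel₀ (pow_ne_zero _ hq0) h5
  have hk : ∀ k : ℕ, p.eval (q ^ k) * iteratedDeriv k G.1 0 = 0 := by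
    intro k
    have h1 : (fun z => ∑ j ∈ Finset.range (p.natDegree + 1), p.coeff j * G.1 (q ^ j * z)) =
        fun _ => (0 : ℂ) := funext h
    have h2 := congrArg (fun F => iteratedDeriv k F (0 : ℂ)) h1
    simp only [iteratedDeriv_fun_const_zero] at h2
    have hck : ∀ c : ℂ, ContDiff ℂ k (fun z => G.1 (c * z)) := fun c =>
      ((hcd.comp (contDiff_const.mul contDiff_id)).of_le le_top)
    rw [iteratedDeriv_fun_sum (fun j _ => ((contDiff_const.mul (hck _)).contDiffAt))] at h2
    refine Eq.trans ?_ h2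
    rw [Polynomial.eval_eq_sum_range, Finset.sum_mul]
    refine Finset.sum_congr rfl fun j _ => ?_
    rw [iteratedDeriv_const_mul _ (hck _).contDiffAt,
      iteratedDeriv_comp_const_mul (hcd.of_le le_top)]
    simp only [mul_zero]
    rw [← pow_mul, ← pow_mul, mul_comm k j]
    ring
  have hfin : {k : ℕ | p.eval (q ^ k) = 0}.Finite := by
    have h1 : ((p.roots.toFinset : Set ℂ)).Finite := Finset.finite_toSet _
    refine (h1.preimage (f := fun k : ℕ => q ^ k) hinj.injOn).subset fun k hk => ?_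
    simp only [mem_preimage, Finset.mem_coe, Multiset.mem_toFinset]
    exact (Polynomial.mem_roots hp).2 hk
  obtain ⟨N, hN⟩ := hfin.bddAbove
  refine pol_of_taylor G (N + 1) fun k hNk => ?_
  refine (mul_eq_zero.1 (hk k)).resolve_left fun h0 => ?_
  have := hN h0
  omega

/-- **Stable spaces of meromorphic functions.** -/
theorem laurent {q : ℂ} (hq0 : q ≠ 0) (hqr : ∀ n : ℕ, 0 < n → q ^ n ≠ 1) (H : Submodule ℂ Mer)
    [FiniteDimensional ℂ H] (hs : ∀ h ∈ H, sg q hq0 h ∈ H) :
    ∃ m : ℕ, ∀ h ∈ H, ∃ P : Polynomial ℂ, im zz ^ m * h = im (pol P) := by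
  classical
  let S : H →ₗ[ℂ] H := (sg q hq0).toLinearMap.restrict hs
  have hSinj : Function.Injective S := by
    intro a b hab
    apply Subtype.ext
    exact sg_inj hq0 (congrArg Subtype.val hab)
  have hSsurj := LinearMap.injective_iff_surjective.1 hSinj
  have hsurj : ∀ h ∈ H, ∃ h' ∈ H, sg q hq0 h' = h := by
    intro h hh
    obtain ⟨h', e⟩ := hSsurj ⟨h, hh⟩
    exact ⟨h', h'.2, congrArg Subtype.val e⟩
  obtain ⟨m, hm⟩ := entire_of_den (H := H) fun c hc => den_local hq0 hqr hs hsurj hc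
  refine ⟨m, fun h hh => ?_⟩
  obtain ⟨G, hG⟩ := hm h hh
  -- the relation
  set p := minpoly ℂ S with hp
  have hp0 : p ≠ 0 := minpoly.ne_zero (Algebra.IsIntegral.isIntegral S)
  have hpS : Polynomial.aeval S p = 0 := minpoly.aeval ℂ S
  have hpow : ∀ j : ℕ, ∀ x : H, ((S ^ j) x : Mer) = (sg q hq0)^[j] x := by
    intro j
    induction j with
    | zero => intro x; rfl
    | succ j ih =>
      intro x
      rw [pow_succ, Function.iterate_succ_apply]
      exact ih (S x)
  have hrel : ∑ j ∈ Finset.range (p.natDegree + 1), p.coeff j • (sg q hq0)^[j] h = 0 := by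
    have h1 := congrArg (fun T : H →ₗ[ℂ] H => (T ⟨h, hh⟩ : Mer)) hpS
    simp only [Polynomial.aeval_eq_sum_range, LinearMap.sum_apply, LinearMap.smul_apply,
      LinearMap.zero_apply] at h1
    rw [← ZeroMemClass.coe_zero H, ← h1]
    rw [AddSubmonoidClass.coe_finsetSum]
    refine Finset.sum_congr rfl fun j _ => ?_
    rw [Submodule.coe_smul, hpow]
  -- iterates of `G`
  have hit : ∀ (j : ℕ) (F : Ent), (sg q hq0)^[j] (im F) = im (cmp (q ^ j) F) := by
    intro j
    induction j with
    | zero =>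
      intro F
      change im F = _
      congr 1
      apply Subtype.ext
      funext z
      rw [cmp_apply, pow_zero, one_mul]
    | succ j ih =>
      intro F
      rw [Function.iterate_succ_apply, sg_im, ih]
      congr 1
      apply Subtype.ext
      funext z
      rw [cmp_apply, cmp_apply, cmp_apply, pow_succ', mul_assoc]
  have hmulit : ∀ (j : ℕ) (x y : Mer), (sg q hq0)^[j] (x * y) =
      (sg q hq0)^[j] x * (sg q hq0)^[j] y := by
    intro j
    induction j with
    | zero => intro x y; rfl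
    | succ j ih =>
      intro x y
      rw [Function.iterate_succ_apply, map_mul, ih, ← Function.iterate_succ_apply,
        ← Function.iterate_succ_apply]
  let p' : Polynomial ℂ := p.comp (Polynomial.C ((q⁻¹) ^ m) * Polynomial.X)
  have hqm : (q⁻¹) ^ m ≠ 0 := pow_ne_zero _ (inv_ne_zero hq0)
  have hp'c : ∀ j, p'.coeff j = p.coeff j * ((q⁻¹) ^ m) ^ j := by
    intro j
    exact Polynomial.comp_C_mul_X_coeff
  have hp'd : p'.natDegree = p.natDegree := by
    have h1 : (Polynomial.C ((q⁻¹) ^ m) * Polynomial.X : Polynomial ℂ).natDegree = 1 :=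
      Polynomial.natDegree_C_mul_X _ hqm
    rw [Polynomial.natDegree_comp, h1, mul_one]
  have hp'0 : p' ≠ 0 := by
    intro h0
    have h1 := hp'c p.natDegree
    rw [h0, Polynomial.coeff_zero, Polynomial.coeff_natDegree] at h1
    exact mul_ne_zero (Polynomial.leadingCoeff_ne_zero.2 hp0) (pow_ne_zero _ hqm) h1.symm
  obtain ⟨P, hP⟩ := pol_of_rel hq0 hqr hp'0 G (by
    intro z
    rw [hp'd]
    have h1 : im (∑ j ∈ Finset.range (p.natDegree + 1), p'.coeff j • cmp (q ^ j) G) = 0 := by
      have h2 : ∀ j : ℕ, im (p'.coeff j • cmp (q ^ j) G) =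
          im zz ^ m * (p.coeff j • (sg q hq0)^[j] h) := by
        intro j
        have e1 : im (p'.coeff j • cmp (q ^ j) G) = p'.coeff j • im (cmp (q ^ j) G) :=
          im_smul _ _
        have e2 : cmp (q ^ j) (zz ^ m) = ((q ^ j) ^ m) • zz ^ m := by
          apply Subtype.ext
          funext x
          rw [cmp_apply, zz_pow_apply]
          change _ = (q ^ j) ^ m * (zz ^ m).1 x
          rw [zz_pow_apply, mul_pow]
        have e3 : im (((q ^ j) ^ m) • zz ^ m) = ((q ^ j) ^ m) • im zz ^ m := by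
          rw [← im_pow]
          exact im_smul _ _
        rw [e1, ← hit, ← hG, hmulit, ← im_pow, hit, e2, e3, hp'c, smul_mul_assoc, smul_smul,
          mul_smul_comm, mul_assoc, im_pow]
        congr 1
        have e4 : ((q⁻¹) ^ m) ^ j * (q ^ j) ^ m = 1 := by
          rw [← pow_mul, ← pow_mul, mul_comm m j, ← mul_pow, inv_mul_cancel₀ hq0, one_pow]
        rw [e4, mul_one]
      have h3 : im (∑ j ∈ Finset.range (p.natDegree + 1), p'.coeff j • cmp (q ^ j) G) =
          ∑ j ∈ Finset.range (p.natDegree + 1), im (p'.coeff j • cmp (q ^ j) G) := map_sum _ _ _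
      rw [h3, Finset.sum_congr rfl fun j _ => h2 j, ← Finset.mul_sum, hrel, mul_zero]
    have h4 : (∑ j ∈ Finset.range (p.natDegree + 1), p'.coeff j • cmp (q ^ j) G) = 0 := by
      apply im_inj
      rw [h1]
      exact (map_zero _).symm
    have h5 := congrFun (congrArg Subtype.val h4) z
    rw [AddSubmonoidClass.coe_finsetSum, Finset.sum_apply] at h5
    exact h5)
  exact ⟨P, by rw [hG, hP]⟩

end Pool.Agent.Run7.h718.ND
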