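import Pool.Agent.Run7.h718.ND.Ram
import Pool.Agent.Y172.Loc3
import Mathlib.FieldTheory.IntermediateField.Adjoin.Algebra
import Pool.Agent.R887.Defs

/-!
The projective space is a normal model of the field of rational functions, and the finiteness of the
ramification.
-/

set_option autoImplicit false

open FF Polynomial Pool.Agent.Y172 Pool.Agent.R887

namespace Pool.Agent.Run7.h718.ND

theorem alg_top {k K ι : Type} [Field k] [Field K] [Algebra k K] {w : ι → K}
    (hw : IntermediateField.adjoin k (Set.range w) = ⊤) :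
    Algebra.IsAlgebraic (Algebra.adjoin k (Set.range w)) K := by
  have h0 : Algebra.IsAlgebraic (IntermediateField.adjoin k (Set.range w)) K := by
    constructor
    intro x
    have hx : x ∈ IntermediateField.adjoin k (Set.range w) := by
      rw [hw]
      exact IntermediateField.mem_top
    exact isAlgebraic_algebraMap (⟨x, hx⟩ : IntermediateField.adjoin k (Set.range w))
  open scoped IntermediateField.algebraAdjoinAdjoin in
  exact Algebra.IsAlgebraic.trans _ (IntermediateField.adjoin k (Set.range w)) K

/-- generators of the right number are independent -/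
theorem basis_top {k K ι : Type} [Field k] [Field K] [Algebra k K] [Finite ι] {w : ι → K}
    (hw : IntermediateField.adjoin k (Set.range w) = ⊤) (hn : Algebra.trdeg k K = Nat.card ι) :
    IsTranscendenceBasis k w := by
  have h2 := alg_top hw
  refine Algebra.IsAlgebraic.isTranscendenceBasis_of_le_trdeg_of_finite k w ?_
  rw [hn, Nat.cast_card]

theorem closed_of_ind {k K ι : Type} [Field k] [Field K] [Algebra k K] {w : ι → K}
    (hw : AlgebraicIndependent k w) : IsIntegrallyClosed (Algebra.adjoin k (Set.range w)) :=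
  IsIntegrallyClosed.of_equiv hw.aevalEquiv.toRingEquiv

variable {K : Type} [Field K] [Algebra ℂ K] {n : ℕ}

theorem quo_top {y : Fin (n + 1) → K} (hy : IntermediateField.adjoin ℂ (Set.range y) = ⊤)
    (h0 : y 0 = 1) {j : Fin (n + 1)} (hj : y j ≠ 0) :
    IntermediateField.adjoin ℂ (Set.range fun i => y i / y j) = ⊤ := by
  rw [eq_top_iff, ← hy, IntermediateField.adjoin_le_iff]
  rintro _ ⟨i, rfl⟩
  have hm : ∀ i, y i / y j ∈ IntermediateField.adjoin ℂ (Set.range fun i => y i / y j) := fun i =>
    IntermediateField.subset_adjoin _ _ ⟨i, rfl⟩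
  have h1 : y i = (y i / y j) / (y 0 / y j) := by
    rw [h0]
    field_simp
  change y i ∈ _
  rw [h1]
  exact div_mem (hm i) (hm 0)

/-- **The projective space.** -/
theorem normal_proj {x : Fin n → K} (hx : IsTranscendenceBasis ℂ x)
    (htop : IntermediateField.adjoin ℂ (Set.range x) = ⊤) :
    NormalModel (Fin.cons 1 x : Fin (n + 1) → K) := by
  set y : Fin (n + 1) → K := Fin.cons 1 x with hy
  have h0 : y 0 = 1 := rfl
  have hytop : IntermediateField.adjoin ℂ (Set.range y) = ⊤ := by
    rw [eq_top_iff, ← htop]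
    apply IntermediateField.adjoin.mono
    rintro _ ⟨i, rfl⟩
    exact ⟨i.succ, rfl⟩
  have hn : Algebra.trdeg ℂ K = n := by
    rw [← hx.cardinalMk_eq_trdeg, Cardinal.mk_fin]
  refine ⟨⟨0, by rw [h0]; exact one_ne_zero⟩, fun j hj => quo_top hytop h0 hj, fun j hj => ?_⟩
  have h1 := quo_top hytop h0 hj
  let u : {i // i ≠ j} → K := fun i => y i / y j
  have hsub : (Set.range fun i => y i / y j) ⊆ insert (1 : K) (Set.range u) := by
    rintro _ ⟨i, rfl⟩
    by_cases hij : i = j
    · left
      change y i / y j = 1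
      rw [hij, div_self hj]
    · right
      exact ⟨⟨i, hij⟩, rfl⟩
  have hsub' : Set.range u ⊆ Set.range fun i => y i / y j := by
    rintro _ ⟨i, rfl⟩
    exact ⟨i, rfl⟩
  have hu : IntermediateField.adjoin ℂ (Set.range u) = ⊤ := by
    rw [eq_top_iff, ← h1, IntermediateField.adjoin_le_iff]
    intro z hz
    rcases hsub hz with rfl | h
    · exact one_mem _
    · exact IntermediateField.subset_adjoin _ _ h
  have hcard : Nat.card {i : Fin (n + 1) // i ≠ j} = n := by
    rw [Nat.card_eq_fintype_card, Fintype.card_subtype_compl]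
    simp
  have hb := basis_top hu (by rw [hcard]; exact hn)
  have hch : chart y j = Algebra.adjoin ℂ (Set.range u) := by
    apply le_antisymm
    · unfold chart
      rw [Algebra.adjoin_le_iff]
      intro z hz
      rcases hsub hz with rfl | h
      · exact one_mem _
      · exact Algebra.subset_adjoin h
    · exact Algebra.adjoin_mono hsub'
  rw [hch]
  exact closed_of_ind hb.1

/-- **The ramification is over a proper closed subset.** -/
theorem ram_finite {N : ℕ} {y : Fin (N + 1) → K} (hy : NormalModel y) {L : Type} [Field L]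
    [Algebra ℂ L] [Algebra K L] [IsScalarTower ℂ K L] [FiniteDimensional K L] :
    {P : Place ℂ K | IsPrimeDivisor y P ∧ ∃ (Q : Place ℂ L) (e : ℕ),
      LiesOver (IsScalarTower.toAlgHom ℂ K L) Q P e ∧ e ≠ 1}.Finite := by
  classical
  have hcK : CharZero K := charZero_of_injective_algebraMap (algebraMap ℂ K).injective
  obtain ⟨θ, hθ⟩ := Field.exists_primitive_element K L
  have hint : IsIntegral K θ := Algebra.IsIntegral.isIntegral θ
  have hgen : ∀ t : L, ∃ p : K[X], t = aeval θ p := by
    intro t
    have h1 : t ∈ IntermediateField.adjoin K {θ} := by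
      rw [hθ]
      exact IntermediateField.mem_top
    rw [← IntermediateField.mem_toSubalgebra,
      IntermediateField.adjoin_simple_toSubalgebra_of_isAlgebraic hint.isAlgebraic,
      Algebra.adjoin_singleton_eq_range_aeval] at h1
    obtain ⟨p, hp⟩ := h1
    exact ⟨p, hp.symm⟩
  set F := minpoly K θ with hF
  have hFm : F.Monic := minpoly.monic hint
  have hF0 : aeval θ F = 0 := minpoly.aeval K θ
  have hF1 : aeval θ (derivative F) ≠ 0 :=
    (Algebra.IsSeparable.isSeparable K θ).aeval_derivative_ne_zero hF0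
  obtain ⟨G, hG⟩ := hgen (aeval θ (derivative F))⁻¹
  have hfin : ∀ c : K, {P : Place ℂ K | IsPrimeDivisor y P ∧ ¬ P.Reg c}.Finite := by
    intro c
    by_cases hc : c = 0
    · refine Set.finite_empty.subset ?_
      rintro P ⟨-, h⟩
      exact h (Or.inl hc)
    · refine (finite_ord hy hc).subset ?_
      rintro P ⟨hP, h⟩
      exact ⟨hP, fun h0 => h (Or.inr h0.ge)⟩
  have hfinP : ∀ p : K[X], {P : Place ℂ K | IsPrimeDivisor y P ∧ ∃ i, ¬ P.Reg (p.coeff i)}.Finite := by
    intro p
    refine (Set.Finite.biUnion (p.support.finite_toSet) fun i _ => hfin (p.coeff i)).subset ?_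
    rintro P ⟨hP, i, hi⟩
    refine Set.mem_biUnion (x := i) ?_ ⟨hP, hi⟩
    rw [Finset.mem_coe, mem_support_iff]
    intro h0
    exact hi (Or.inl h0)
  refine ((hfinP F).union (hfinP G)).subset ?_
  rintro P ⟨hP, Q, e, hov, he⟩
  by_contra hno
  rw [Set.mem_union, not_or] at hno
  have h1 : ∀ i, P.Reg (F.coeff i) := by
    intro i
    by_contra h
    exact hno.1 ⟨hP, i, h⟩
  have h2 : ∀ i, P.Reg (G.coeff i) := by
    intro i
    by_contra h
    exact hno.2 ⟨hP, i, h⟩
  have hreg : ∀ f : K, P.Reg f → Q.Reg (algebraMap K L f) := by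
    rintro f (rfl | hf)
    · left; exact map_zero _
    · right
      have h3 : Q.ord (algebraMap K L f) = e * P.ord f := hov.2 f
      rw [h3]
      positivity
  have hθr : Q.Reg θ := by
    let iA : Algebra P.O L := ((algebraMap K L).comp P.O.subtype).toAlgebra
    obtain ⟨F0, hF0F, -, hF0m⟩ := lifts_and_natDegree_eq_and_monic (f := P.O.subtype) (p := F)
      ((lifts_iff_coeff_lifts F).2 fun i => ⟨⟨F.coeff i, h1 i⟩, rfl⟩) hFm
    refine Q.reg_of_isIntegral (A := P.O) (fun a => hreg a a.2) ⟨F0, hF0m, ?_⟩
    have h3 : eval₂ ((algebraMap K L).comp P.O.subtype) θ F0 = aeval θ (F0.map P.O.subtype) := by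
      rw [aeval_def, eval₂_map]
    rw [hF0F, hF0] at h3
    exact h3
  have hrp : ∀ p : K[X], (∀ i, P.Reg (p.coeff i)) → Q.Reg (aeval θ p) := by
    intro p hp
    rw [aeval_eq_sum_range]
    have hpow : ∀ i : ℕ, Q.Reg (θ ^ i) := by
      intro i
      induction i with
      | zero => rw [pow_zero]; exact Q.reg_one
      | succ i ih => rw [pow_succ]; exact Q.reg_mul ih hθr
    have key : ∀ s : Finset ℕ, Q.Reg (∑ i ∈ s, p.coeff i • θ ^ i) := by
      intro s
      induction s using Finset.induction_on with
      | empty => rw [Finset.sum_empty]; exact Q.reg_zero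
      | insert i s hi ih =>
        rw [Finset.sum_insert hi]
        refine Q.reg_add ?_ ih
        rw [Algebra.smul_def]
        exact Q.reg_mul (hreg _ (hp i)) (hpow i)
    exact key _
  have h3 : Q.Reg (aeval θ (derivative F)) := by
    refine hrp _ fun i => ?_
    rw [coeff_derivative]
    refine P.reg_mul (h1 _) ?_
    have h4 := P.reg_const ((i : ℂ) + 1)
    rwa [map_add, map_natCast, map_one] at h4
  have h4 : Q.Reg (aeval θ (derivative F))⁻¹ := by
    rw [hG]
    exact hrp G h2
  have h5 : Q.ord (aeval θ (derivative F)) = 0 := by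
    have h6 := (Q.reg_iff hF1).1 h3
    have h7 := (Q.reg_iff (inv_ne_zero hF1)).1 h4
    rw [Q.ord_inv] at h7
    omega
  exact he (ram_core hov.1 hov.2 hgen hFm h1 hF0 hF1 h5)

end Pool.Agent.Run7.h718.ND
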