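import Pool.Agent.Helper386.D5V.Helper386_FF_Fund
import Pool.Agent.Helper386.D5V.Helper399_FF4a

/-!
A criterion for places to be unramified.
-/

set_option autoImplicit false

open FF Polynomial

namespace Pool.Agent.Run7.h718.ND

theorem isU {k K : Type} [Field k] [Field K] [Algebra k K] (P : Place k K) (a : P.O) :
    IsUnit a ↔ (a : K) ≠ 0 ∧ P.ord (a : K) = 0 := P.isUnit_O_iff a.2

theorem ram_core {k K L : Type} [Field k] [Field K] [Field L] [Algebra k K] [Algebra k L]
    [Algebra K L] {P : Place k K} {Q : Place k L} {e : ℕ} (he : 1 ≤ e)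
    (hPQ : ∀ f : K, Q.ord (algebraMap K L f) = e * P.ord f) {θ : L}
    (hθ : ∀ t : L, ∃ p : K[X], t = aeval θ p) {F : K[X]} (hF : F.Monic)
    (hFr : ∀ i, P.Reg (F.coeff i)) (hF0 : aeval θ F = 0)
    (hF1 : aeval θ (derivative F) ≠ 0) (hF2 : Q.ord (aeval θ (derivative F)) = 0) : e = 1 := by
  classical
  have hreg : ∀ f : K, P.Reg f → Q.Reg (algebraMap K L f) := by
    rintro f (rfl | hf)
    · left; exact map_zero _
    · right
      rw [hPQ]
      positivity
  let i0 : P.O →+* L := (algebraMap K L).comp P.O.subtype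
  let j : P.O →+* Q.O := i0.codRestrict Q.O fun a => hreg a a.2
  have hloc : IsLocalHom j := by
    constructor
    intro a hu
    have h1 : algebraMap K L a ≠ 0 ∧ Q.ord (algebraMap K L a) = 0 := (isU Q (j a)).1 hu
    rw [isU]
    refine ⟨fun h0 => h1.1 (by rw [h0, map_zero]), ?_⟩
    have h2 := h1.2
    rw [hPQ] at h2
    have h3 : (e : ℤ) ≠ 0 := by positivity
    exact (mul_eq_zero.1 h2).resolve_left h3
  -- the polynomial over the valuation ring
  obtain ⟨F0, hF0F, -, hF0m⟩ := lifts_and_natDegree_eq_and_monic (f := P.O.subtype) (p := F)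
    ((lifts_iff_coeff_lifts F).2 fun i => ⟨⟨F.coeff i, hFr i⟩, rfl⟩) hF
  let ev : P.O[X] →+* L := eval₂RingHom i0 θ
  have hev : ∀ a : P.O[X], ev a = aeval θ (a.map P.O.subtype) := by
    intro a
    rw [aeval_def, eval₂_map]
    rfl
  have hθr : Q.Reg θ := by
    let iA : Algebra P.O L := i0.toAlgebra
    refine Q.reg_of_isIntegral (A := P.O) (fun a => hreg a a.2) ⟨F0, hF0m, ?_⟩
    have h1 := hev F0
    rw [hF0F, hF0] at h1
    exact h1
  let evO : P.O[X] →+* Q.O := eval₂RingHom j ⟨θ, hθr⟩
  have hevO : ∀ a, (evO a : L) = ev a := by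
    intro a
    have h1 := hom_eval₂ a j Q.O.subtype ⟨θ, hθr⟩
    exact h1
  let iκ : Algebra (IsLocalRing.ResidueField P.O) (IsLocalRing.ResidueField Q.O) :=
    (IsLocalRing.ResidueField.map j).toAlgebra
  obtain ⟨θb, hθb⟩ : ∃ θb, θb = IsLocalRing.residue Q.O ⟨θ, hθr⟩ := ⟨_, rfl⟩
  have hres : ∀ a, IsLocalRing.residue Q.O (evO a) =
      aeval θb (a.map (IsLocalRing.residue P.O)) := by
    intro a
    rw [aeval_def, eval₂_map]
    have h1 := hom_eval₂ a j (IsLocalRing.residue Q.O) ⟨θ, hθr⟩
    rw [← hθb] at h1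
    have h2 : (IsLocalRing.residue Q.O).comp j = (algebraMap (IsLocalRing.ResidueField P.O)
        (IsLocalRing.ResidueField Q.O)).comp (IsLocalRing.residue P.O) :=
      (IsLocalRing.ResidueField.map_comp_residue j).symm
    rw [← h2]
    exact h1
  have hunit : ∀ a : Q.O, IsLocalRing.residue Q.O a ≠ 0 ↔ ((a : L) ≠ 0 ∧ Q.ord (a : L) = 0) := by
    intro a
    rw [Ne, IsLocalRing.residue_eq_zero_iff, IsLocalRing.mem_maximalIdeal, mem_nonunits_iff,
      not_not, isU]
  have hFb0 : aeval θb (F0.map (IsLocalRing.residue P.O)) = 0 := by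
    rw [← hres]
    have h1 : evO F0 = 0 := by
      apply Subtype.ext
      rw [hevO, hev, hF0F, hF0]
      rfl
    rw [h1, map_zero]
  obtain ⟨hb, hhb⟩ := minpoly.dvd (IsLocalRing.ResidueField P.O) θb hFb0
  have hhb0 : aeval θb hb ≠ 0 := by
    intro h0
    have h1 : aeval θb (derivative (F0.map (IsLocalRing.residue P.O))) = 0 := by
      rw [hhb, derivative_mul, map_add, map_mul, map_mul, h0, minpoly.aeval, mul_zero, zero_mul,
        add_zero]
    rw [derivative_map, ← hres] at h1
    have h2 : (evO (derivative F0) : L) = aeval θ (derivative F) := by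
      rw [hevO, hev, ← derivative_map, hF0F]
    refine (hunit (evO (derivative F0))).2 ?_ h1
    rw [h2]
    exact ⟨hF1, hF2⟩
  obtain ⟨g, hg⟩ := map_surjective _ IsLocalRing.residue_surjective
    (minpoly (IsLocalRing.ResidueField P.O) θb)
  obtain ⟨h, hh⟩ := map_surjective _ IsLocalRing.residue_surjective hb
  obtain ⟨t, ht0, ht⟩ := P.surj
  have htr : P.Reg t := Or.inr (by omega)
  have hker : ∀ a : P.O[X], a.map (IsLocalRing.residue P.O) = 0 →
      ∃ s : P.O[X], a = C (⟨t, htr⟩ : P.O) * s := by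
    intro a ha
    have h1 : C (⟨t, htr⟩ : P.O) ∣ a := by
      rw [C_dvd_iff_dvd_coeff]
      intro i
      have h2 : IsLocalRing.residue P.O (a.coeff i) = 0 := by
        rw [← coeff_map, ha, coeff_zero]
      rw [IsLocalRing.residue_eq_zero_iff, IsLocalRing.mem_maximalIdeal, mem_nonunits_iff] at h2
      obtain ⟨c, hc⟩ : ∃ c, c = a.coeff i := ⟨_, rfl⟩
      rw [← hc] at h2 ⊢
      rw [isU] at h2
      by_cases hc0 : (c : K) = 0
      · exact ⟨0, Subtype.ext (by rw [mul_zero]; exact hc0)⟩
      · have h3 := (P.reg_iff hc0).1 c.2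
        have h4 : P.ord (c : K) ≠ 0 := fun h => h2 ⟨hc0, h⟩
        refine ⟨⟨c / t, Or.inr ?_⟩, Subtype.ext ?_⟩
        · rw [P.ord_div hc0 ht0, ht]
          omega
        · change (c : K) = t * (c / t)
          field_simp
    exact h1
  obtain ⟨r, hr⟩ := hker (F0 - g * h) (by
    rw [Polynomial.map_sub, Polynomial.map_mul, hg, hh, hhb, sub_self])
  have hevC : ev (C (⟨t, htr⟩ : P.O)) = algebraMap K L t := eval₂_C _ _
  have hevF : ev g * ev h + algebraMap K L t * ev r = 0 := by
    have h1 : ev F0 = 0 := by rw [hev, hF0F, hF0]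
    have h2 : F0 = g * h + C (⟨t, htr⟩ : P.O) * r := by rw [← hr]; ring
    rw [h2, map_add, map_mul, map_mul, hevC] at h1
    exact h1
  have hh1 : ev h ≠ 0 ∧ Q.ord (ev h) = 0 := by
    rw [← hevO]
    apply (hunit (evO h)).1
    rw [hres, hh]
    exact hhb0
  have htL : algebraMap K L t ≠ 0 := by rwa [Ne, map_eq_zero]
  have key : ∀ (n : ℕ) (a : P.O[X]), ev a ≠ 0 → Q.ord (ev a) = n → e ∣ n := by
    intro n
    induction n using Nat.strong_induction_on with
    | _ n ih =>
      intro a ha0 han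
      rcases Nat.eq_zero_or_pos n with hn | hn
      · rw [hn]
        exact dvd_zero _
      have h1 : IsLocalRing.residue Q.O (evO a) = 0 := by
        by_contra hne
        have h2 := ((hunit (evO a)).1 hne).2
        rw [hevO, han] at h2
        omega
      rw [hres] at h1
      obtain ⟨cb, hcb⟩ := minpoly.dvd (IsLocalRing.ResidueField P.O) θb h1
      obtain ⟨c, hc⟩ := map_surjective _ IsLocalRing.residue_surjective cb
      obtain ⟨s, hs⟩ := hker (a - g * c) (by
        rw [Polynomial.map_sub, Polynomial.map_mul, hg, hc, hcb, sub_self])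
      have h2 : ev a = ev g * ev c + algebraMap K L t * ev s := by
        have h3 : a = g * c + C (⟨t, htr⟩ : P.O) * s := by rw [← hs]; ring
        conv_lhs => rw [h3]
        rw [map_add, map_mul, map_mul, hevC]
      have h3 : ev a * ev h = algebraMap K L t * ev (s * h - r * c) := by
        rw [h2, map_sub, map_mul, map_mul]
        linear_combination (ev c) * hevF
      have h4 : ev (s * h - r * c) ≠ 0 := by
        intro h0
        rw [h0, mul_zero] at h3
        exact mul_ne_zero ha0 hh1.1 h3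
      have h5 := congrArg Q.ord h3
      rw [Q.ord_mul ha0 hh1.1, Q.ord_mul htL h4, hPQ, ht, hh1.2, han] at h5
      have h6 : 0 ≤ Q.ord (ev (s * h - r * c)) := by
        have h7 := (evO (s * h - r * c)).2
        rw [hevO] at h7
        exact (Q.reg_iff h4).1 h7
      obtain ⟨n', hn'⟩ := Int.eq_ofNat_of_zero_le h6
      rw [hn'] at h5
      have h7 : n = e + n' := by
        have : (n : ℤ) = e + n' := by linarith
        exact_mod_cast this
      rw [h7]
      exact (Nat.dvd_add_right (dvd_refl e)).2 (ih n' (by omega) _ h4 hn')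
  obtain ⟨u, hu0, hu⟩ := Q.surj
  obtain ⟨p, hp⟩ := hθ u
  obtain ⟨b, hbm, hb'⟩ := IsLocalization.integerNormalization_spec (nonZeroDivisors P.O) p
  have hbne : (b : K) ≠ 0 := fun h0 =>
    nonZeroDivisors.ne_zero hbm (Subtype.ext h0)
  have hbr : P.Reg (b : K) := b.2
  have hbL : algebraMap K L (b : K) ≠ 0 := by rwa [Ne, map_eq_zero]
  have hevp : ev (IsLocalization.integerNormalization (nonZeroDivisors P.O) p) =
      algebraMap K L (b : K) * u := by
    rw [hev]
    have h1 : (IsLocalization.integerNormalization (nonZeroDivisors P.O) p).map P.O.subtype =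
        C (b : K) * p := by
      refine hb'.trans ?_
      ext i
      rw [coeff_smul, coeff_C_mul]
      rfl
    rw [h1, map_mul, aeval_C, ← hp]
  have h8 : Q.ord (ev (IsLocalization.integerNormalization (nonZeroDivisors P.O) p)) =
      e * P.ord (b : K) + 1 := by
    rw [hevp, Q.ord_mul hbL hu0, hPQ, hu]
  have h9 := (P.reg_iff hbne).1 hbr
  obtain ⟨m, hm⟩ := Int.eq_ofNat_of_zero_le h9
  have h10 : e ∣ e * m + 1 := by
    refine key (e * m + 1) _ (by rw [hevp]; exact mul_ne_zero hbL hu0) ?_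
    rw [h8, hm]
    push_cast
    rfl
  have h11 : e ∣ 1 := (Nat.dvd_add_right (Dvd.intro m rfl)).1 h10
  exact Nat.dvd_one.1 h11

end Pool.Agent.Run7.h718.ND
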