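import Mathlib

/-!
Entire functions, meromorphic functions, and the substitution of `q z`.
-/

set_option autoImplicit false

namespace Pool.Agent.Run7.h718.ND

open Set Filter Topology

/-- the ring of entire functions -/
def Ent : Subalgebra ℂ (ℂ → ℂ) where
  carrier := {f | Differentiable ℂ f}
  mul_mem' := fun hf hg => Differentiable.mul hf hg
  add_mem' := fun hf hg => Differentiable.add hf hg
  algebraMap_mem' := fun c => differentiable_const c

theorem ent_an (f : Ent) : AnalyticOnNhd ℂ f.1 univ := fun z _ =>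
  (show Differentiable ℂ f.1 from f.2).analyticAt z

instance : IsDomain Ent := by
  have h1 : NoZeroDivisors Ent := by
    constructor
    intro f g h
    have h2 : ∀ z ∈ (univ : Set ℂ), f.1 z * g.1 z = 0 := fun z _ =>
      congrFun (congrArg Subtype.val h) z
    rcases AnalyticOnNhd.eq_zero_or_eq_zero_of_mul_eq_zero (ent_an f) (ent_an g) h2
      isPreconnected_univ with h3 | h3
    · exact Or.inl (Subtype.ext (funext fun z => h3 z (mem_univ z)))
    · exact Or.inr (Subtype.ext (funext fun z => h3 z (mem_univ z)))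
  have h2 : Nontrivial Ent := by
    refine ⟨⟨0, 1, fun h => ?_⟩⟩
    have := congrFun (congrArg Subtype.val h) 0
    exact zero_ne_one this
  exact NoZeroDivisors.to_isDomain _

/-- the field of meromorphic functions -/
abbrev Mer := FractionRing Ent

/-- an entire function as a meromorphic function -/
noncomputable abbrev im (f : Ent) : Mer := algebraMap Ent Mer f

theorem im_inj {f g : Ent} (h : im f = im g) : f = g := IsFractionRing.injective Ent Mer h

/-- substitution of `q z` -/
def cmp (q : ℂ) : Ent →ₐ[ℂ] Ent where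
  toFun f := ⟨fun z => f.1 (q * z), (show Differentiable ℂ f.1 from f.2).comp
    (differentiable_id.const_mul q)⟩
  map_one' := rfl
  map_mul' _ _ := rfl
  map_zero' := rfl
  map_add' _ _ := rfl
  commutes' _ := rfl

theorem cmp_apply (q : ℂ) (f : Ent) (z : ℂ) : (cmp q f).1 z = f.1 (q * z) := rfl

theorem cmp_inj {q : ℂ} (hq : q ≠ 0) : Function.Injective (cmp q) := by
  intro f g h
  apply Subtype.ext
  funext z
  have h1 := congrFun (congrArg Subtype.val h) (q⁻¹ * z)
  rw [cmp_apply, cmp_apply, mul_inv_cancel_left₀ hq] at h1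
  exact h1

/-- substitution of `q z`, as a meromorphic function -/
noncomputable def gh (q : ℂ) : Ent →ₐ[ℂ] Mer := (IsScalarTower.toAlgHom ℂ Ent Mer).comp (cmp q)

theorem gh_apply (q : ℂ) (f : Ent) : gh q f = im (cmp q f) := rfl

theorem gh_inj {q : ℂ} (hq : q ≠ 0) : Function.Injective (gh q) := fun _ _ h =>
  cmp_inj hq (im_inj h)

/-- substitution of `q z` for meromorphic functions -/
noncomputable def sg (q : ℂ) (hq : q ≠ 0) : Mer →ₐ[ℂ] Mer :=
  IsFractionRing.liftAlgHom (K := Mer) (gh_inj hq)

theorem sg_im {q : ℂ} (hq : q ≠ 0) (f : Ent) : sg q hq (im f) = im (cmp q f) :=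
  IsFractionRing.lift_algebraMap (K := Mer) (gh_inj hq) f

/-- a polynomial as an entire function -/
def pol (P : Polynomial ℂ) : Ent := ⟨fun z => P.eval z, P.differentiable⟩

theorem pol_apply (P : Polynomial ℂ) (z : ℂ) : (pol P).1 z = P.eval z := rfl

/-- the coordinate -/
def zz : Ent := ⟨fun z => z, differentiable_id⟩

theorem zz_ne : zz ≠ 0 := by
  intro h
  have := congrFun (congrArg Subtype.val h) 1
  exact one_ne_zero this

theorem im_ne {f : Ent} (h : f ≠ 0) : im f ≠ 0 := by
  intro h0
  exact h (im_inj (h0.trans (map_zero _).symm))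

/-- the nonzero entire functions vanish at no orbit -/
theorem orbit_zero {q : ℂ} (hq0 : q ≠ 0) (hqr : ∀ n : ℕ, 0 < n → q ^ n ≠ 1) {c : ℂ} (hc : c ≠ 0)
    {D : Ent} (h1 : ∀ k : ℕ, D.1 (q ^ k * c) = 0) (h2 : ∀ k : ℕ, D.1 (q⁻¹ ^ k * c) = 0) : D = 0 := by
  -- one of the two half orbits is bounded
  have key : ∀ p : ℂ, p ≠ 0 → (∀ n : ℕ, 0 < n → p ^ n ≠ 1) → ‖p‖ ≤ 1 →
      (∀ k : ℕ, D.1 (p ^ k * c) = 0) → D = 0 := by
    intro p hp0 hpr hp1 hD
    have hinj : Function.Injective fun k : ℕ => p ^ k * c := by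
      intro a b hab
      have h3 : p ^ a = p ^ b := mul_right_cancel₀ hc hab
      rcases lt_trichotomy a b with h | h | h
      · exfalso
        apply hpr (b - a) (by omega)
        have h4 : p ^ b = p ^ a * p ^ (b - a) := by rw [← pow_add]; congr 1; omega
        rw [h4] at h3
        have h5 : p ^ a * p ^ (b - a) = p ^ a * 1 := by rw [mul_one]; exact h3.symm
        exact mul_left_cancel₀ (pow_ne_zero _ hp0) h5
      · exact h
      · exfalso
        apply hpr (a - b) (by omega)
        have h4 : p ^ a = p ^ b * p ^ (a - b) := by rw [← pow_add]; congr 1; omega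
        rw [h4] at h3
        have h5 : p ^ b * p ^ (a - b) = p ^ b * 1 := by rw [mul_one]; exact h3
        exact mul_left_cancel₀ (pow_ne_zero _ hp0) h5
    have hbd : range (fun k : ℕ => p ^ k * c) ⊆ Metric.closedBall (0 : ℂ) ‖c‖ := by
      rintro _ ⟨k, rfl⟩
      rw [mem_closedBall_zero_iff, norm_mul, norm_pow]
      exact mul_le_of_le_one_left (norm_nonneg _) (pow_le_one₀ (norm_nonneg _) hp1)
    obtain ⟨x, -, hx⟩ := (infinite_range_of_injective hinj).exists_accPt_of_subset_isCompact
      (isCompact_closedBall (0 : ℂ) ‖c‖) hbd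
    have hfr : ∃ᶠ z in 𝓝[≠] x, D.1 z = 0 := by
      refine (accPt_iff_frequently_nhdsNE.1 hx).mono ?_
      rintro _ ⟨k, rfl⟩
      exact hD k
    have h3 := (ent_an D).eqOn_zero_of_preconnected_of_frequently_eq_zero isPreconnected_univ
      (mem_univ x) hfr
    exact Subtype.ext (funext fun z => h3 (mem_univ z))
  rcases le_total ‖q‖ 1 with h | h
  · exact key q hq0 hqr h h1
  · refine key q⁻¹ (inv_ne_zero hq0) (fun n hn h3 => hqr n hn ?_) ?_ h2
    · rw [inv_pow, inv_eq_one] at h3
      exact h3
    · rw [norm_inv]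
      exact inv_le_one_of_one_le₀ h

end Pool.Agent.Run7.h718.ND
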