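import Pool.Agent.Run7.h718.ND.Act
import Pool.Agent.TH143.GT.Kod

/-!
Function fields with an embedding into the meromorphic functions, and the substitution of `q z`.
-/

set_option autoImplicit false
set_option linter.overlappingInstances false
set_option linter.unusedSectionVars false
set_option maxHeartbeats 1000000
set_option synthInstance.maxHeartbeats 400000

open FF Pool.Agent.W602.GT Pool.Agent.TH143.GT

namespace Pool.Agent.Run7.h718.ND

/-- finiteness of the pluricanonical forms -/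
def S_FIN : Prop := ∀ (L : Type) [Field L] [Algebra ℂ L] [Algebra.EssFiniteType ℂ L] (n : ℕ),
  Algebra.trdeg ℂ L = n → ∀ x : Fin n → L, IsTranscendenceBasis ℂ x → ∀ m : ℕ, 1 ≤ m →
    FiniteDimensional ℂ (Gs x m)

theorem lift_end {L : Type} [Field L] [Algebra ℂ L] {q : ℂ} (hq0 : q ≠ 0) (ι : L →ₐ[ℂ] Mer)
    (h : ∀ r, ∃ s, ι s = sg q hq0 (ι r)) : ∃ φ : L →ₐ[ℂ] L, ∀ r, ι (φ r) = sg q hq0 (ι r) := by
  choose s hs using h
  have hinj : Function.Injective ι := ι.toRingHom.injective
  exact ⟨{ toFun := s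
           map_one' := hinj (by rw [hs, map_one, map_one])
           map_mul' := fun a b => hinj (by rw [hs, map_mul, map_mul, map_mul, hs, hs])
           map_zero' := hinj (by rw [hs, map_zero, map_zero])
           map_add' := fun a b => hinj (by rw [hs, map_add, map_add, map_add, hs, hs])
           commutes' := fun c => hinj (by rw [hs, AlgHom.commutes, AlgHom.commutes]) }, hs⟩

theorem stage_alg (hF : S_FIN) {K L : Type} [Field K] [Algebra ℂ K] [Algebra.EssFiniteType ℂ K]
    [Field L] [Algebra ℂ L] [Algebra.EssFiniteType ℂ L] {w : ℕ}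
    (hw : Algebra.trdeg ℂ K = w) {q : ℂ} (hq0 : q ≠ 0) (hqr : ∀ n : ℕ, 0 < n → q ^ n ≠ 1)
    (ι : K →ₐ[ℂ] Mer) (ιL : L →ₐ[ℂ] Mer) (κ : K →ₐ[ℂ] L) (hκ : ∀ r, ιL (κ r) = ι r)
    (hst : ∀ r, ∃ s, ιL s = sg q hq0 (ιL r)) {x : Fin w → K} (hx : IsTranscendenceBasis ℂ x)
    (hxA : IsTranscendenceBasis ℂ (fun i => κ (x i))) {N : ℕ} (hN : 1 ≤ N) {f g : K}
    (hf : f ∈ Gs x N) (hg : g ∈ Gs x N) (hg0 : g ≠ 0) : IsRatl (ι (f / g)) := by
  obtain ⟨φ, hφ⟩ := lift_end hq0 ιL hst
  have hwA : Algebra.trdeg ℂ L = w := by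
    rw [← hxA.cardinalMk_eq_trdeg, Cardinal.mk_fin]
  choose E hE using fun i : Fin w => exists_der x hx fun j => if i = j then 1 else 0
  choose EA hEA using fun i : Fin w => exists_der _ hxA fun j => if i = j then 1 else 0
  have hpull : ∀ f ∈ Gs x N, κ f ∈ Gs (fun i => κ (x i)) N := by
    intro f hf
    have h1 := pull_Gs hw hwA hx hE hxA hEA κ hf
    have h2 : (Matrix.of fun i j => EA i (κ (x j))) = (1 : Matrix (Fin w) (Fin w) L) := by
      ext i j
      rw [Matrix.of_apply, Matrix.one_apply]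
      exact hEA i j
    rw [h2, Matrix.det_one, one_pow, one_mul] at h1
    exact h1
  have hg0' : κ g ≠ 0 := by rwa [Ne, map_eq_zero]
  have h3 := act hwA hq0 hqr ιL φ hφ hxA (hF L w hwA _ hxA N hN) (hpull f hf) (hpull g hg) hg0'
  rw [← map_div₀, hκ] at h3
  exact h3

theorem stage_tr (hF : S_FIN) {K F : Type} [Field K] [Algebra ℂ K] [Algebra.EssFiniteType ℂ K]
    [Field F] [Algebra ℂ F] {w : ℕ}
    (hw : Algebra.trdeg ℂ K = w) {q : ℂ} (hq0 : q ≠ 0) (hqr : ∀ n : ℕ, 0 < n → q ^ n ≠ 1)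
    (ι : K →ₐ[ℂ] Mer) (ψ : K →ₐ[ℂ] RatFunc F)
    (hψ : ∀ (r : K) (c : F), ψ r = algebraMap F (RatFunc F) c → ∃ s, ι s = sg q hq0 (ι r)) :
    Covered K ∨ ∀ (x : Fin w → K), IsTranscendenceBasis ℂ x → ∀ N : ℕ, 1 ≤ N →
      ∀ f ∈ Gs x N, ∀ g ∈ Gs x N, g ≠ 0 → IsRatl (ι (f / g)) := by
  by_cases hc : ∃ r : K, ∀ c : F, ψ r ≠ algebraMap F (RatFunc F) c
  · exact Or.inl ⟨F, inferInstance, inferInstance, ψ, hc⟩
  · right
    push Not at hc
    obtain ⟨φ, hφ⟩ := lift_end hq0 ι fun r => by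
      obtain ⟨c, hc⟩ := hc r
      exact hψ r c hc
    intro x hx N hN f hf g hg hg0
    exact act hw hq0 hqr ι φ hφ hx (hF K w hw x hx N hN) hf hg hg0

/-- **The dichotomy.** -/
theorem stage (hF : S_FIN) {K : Type} [Field K] [Algebra ℂ K] [Algebra.EssFiniteType ℂ K] {w : ℕ}
    (hw : Algebra.trdeg ℂ K = w) {q : ℂ} (hq0 : q ≠ 0) (hqr : ∀ n : ℕ, 0 < n → q ^ n ≠ 1)
    (ι : K →ₐ[ℂ] Mer) (hA : ∀ r : K, sg q hq0 (ι r) ∈ IntermediateField.adjoin ι.fieldRange {im zz}) :
    Covered K ∨ ∀ (x : Fin w → K), IsTranscendenceBasis ℂ x → ∀ N : ℕ, 1 ≤ N →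
      ∀ f ∈ Gs x N, ∀ g ∈ Gs x N, g ≠ 0 → IsRatl (ι (f / g)) := by
  classical
  have hιinj : Function.Injective ι := ι.toRingHom.injective
  by_cases htr : Transcendental ι.fieldRange (im zz)
  · -- the coordinate is transcendental
    let e := RatFunc.algEquivOfTranscendental (im zz) htr
    let ψ0 : K →ₐ[ℂ] IntermediateField.adjoin ι.fieldRange {im zz} :=
      { toFun := fun r => ⟨((sg q hq0).comp ι) r, hA r⟩
        map_one' := Subtype.ext (map_one ((sg q hq0).comp ι))
        map_mul' := fun a b => Subtype.ext (map_mul ((sg q hq0).comp ι) a b)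
        map_zero' := Subtype.ext (map_zero ((sg q hq0).comp ι))
        map_add' := fun a b => Subtype.ext (map_add ((sg q hq0).comp ι) a b)
        commutes' := fun c => Subtype.ext (((sg q hq0).comp ι).commutes c) }
    let ψ : K →ₐ[ℂ] RatFunc ι.fieldRange := ((e.symm.restrictScalars ℂ).toAlgHom).comp ψ0
    refine stage_tr hF hw hq0 hqr ι ψ fun r c hc => ?_
    have h1 : ψ0 r = e (algebraMap ι.fieldRange (RatFunc ι.fieldRange) c) := by
      rw [← hc]
      exact (e.apply_symm_apply (ψ0 r)).symm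
    rw [e.commutes] at h1
    have h2 : sg q hq0 (ι r) = (c : Mer) := congrArg Subtype.val h1
    obtain ⟨s, hs⟩ := c.2
    exact ⟨s, hs.trans h2.symm⟩
  · -- the coordinate is algebraic
    right
    have halg : IsAlgebraic ι.fieldRange (im zz) := by
      unfold Transcendental at htr
      exact not_not.1 htr
    intro x hx N hN f hf g hg hg0
    obtain ⟨A, hAdef⟩ : ∃ A : IntermediateField ι.fieldRange Mer,
        A = IntermediateField.adjoin ι.fieldRange {im zz} := ⟨_, rfl⟩
    rw [← hAdef] at hA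
    have hfdA : FiniteDimensional ι.fieldRange A := by
      rw [hAdef]
      exact IntermediateField.adjoin.finiteDimensional halg.isIntegral
    obtain ⟨eF, heF⟩ : ∃ eF : K ≃ₐ[ℂ] ι.fieldRange, ∀ r, (eF r : Mer) = ι r :=
      ⟨AlgEquiv.ofInjectiveField ι, fun _ => rfl⟩
    have hessF : Algebra.EssFiniteType ℂ ι.fieldRange :=
      Algebra.EssFiniteType.of_surjective eF.toAlgHom eF.surjective
    have hessA : Algebra.EssFiniteType ℂ A := by
      have h1 : Algebra.EssFiniteType ι.fieldRange A := inferInstance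
      exact Algebra.EssFiniteType.comp ℂ ι.fieldRange A
    let ιA : A →ₐ[ℂ] Mer := A.val.restrictScalars ℂ
    obtain ⟨κ, hκ0⟩ : ∃ κ : K →ₐ[ℂ] A, ∀ r, κ r = algebraMap ι.fieldRange A (eF r) :=
      ⟨(IsScalarTower.toAlgHom ℂ ι.fieldRange A).comp eF.toAlgHom, fun _ => rfl⟩
    have hκ : ∀ r, ιA (κ r) = ι r := by
      intro r
      rw [hκ0, ← heF]
      rfl
    -- the stability
    have hst : ∀ a ∈ A, sg q hq0 a ∈ A := by
      intro a ha
      rw [hAdef] at ha
      induction ha using IntermediateField.adjoin_induction with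
      | mem x hx =>
        have hx' : x = im zz := hx
        have h1 : cmp q zz = q • zz := Subtype.ext rfl
        rw [hx', sg_im, h1, im_smul, Algebra.smul_def]
        refine mul_mem ?_ ?_
        · have h2 := A.algebraMap_mem (algebraMap ℂ ι.fieldRange q)
          exact h2
        · rw [hAdef]
          exact IntermediateField.subset_adjoin _ _ rfl
      | algebraMap x =>
        obtain ⟨_, r, rfl⟩ := x
        exact hA r
      | add x y _ _ hx hy => rw [map_add]; exact add_mem hx hy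
      | inv x _ hx => rw [map_inv₀]; exact inv_mem hx
      | mul x y _ _ hx hy => rw [map_mul]; exact mul_mem hx hy
    -- the basis
    have hxF : IsTranscendenceBasis ℂ (fun i => eF (x i)) := eF.isTranscendenceBasis hx
    have halgA : Algebra.IsAlgebraic ι.fieldRange A := inferInstance
    have hxA : IsTranscendenceBasis ℂ (fun i => κ (x i)) := by
      have h1 : (fun i => κ (x i)) = (algebraMap ι.fieldRange A) ∘ (fun i => eF (x i)) :=
        funext fun i => hκ0 (x i)
      rw [h1]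
      exact hxF.algebraMap_comp
    exact stage_alg hF hw hq0 hqr ι ιA κ hκ (fun r => ⟨⟨sg q hq0 r, hst r r.2⟩, rfl⟩) hx hxA hN
      hf hg hg0

end Pool.Agent.Run7.h718.ND
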